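import Pool.Agent.U446.GO.Lo1

/-! Lower bound, second part: most of the data are connected. -/

set_option autoImplicit false

namespace Pool.Agent.U446.GO

open Finset

section cnt

variable {n : ℕ} {N : ℕ} {M : Finset (Fin n)}

/-- the possible choices outside `M` -/
def Uf (M : Finset (Fin n)) : Finset (Dt n) := univ ×ˢ (univ ×ˢ M.powerset)

lemma card_Uf : (Uf M).card = 4 * 2 ^ M.card := by
  unfold Uf
  rw [card_product, card_product, card_powerset, card_univ, Fintype.card_bool]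
  ring

lemma prod_opt (c : ℕ) : (∏ p : Fin n, if p ∈ Od n N \ M then c else 1) = c ^ (Od n N \ M).card := by
  rw [prod_ite, prod_const, prod_const_one, mul_one]
  congr 2
  ext p
  simp

lemma card_opt (p : Fin n) : (opt N M p).card = if p ∈ Od n N \ M then (Uf M).card else 1 := by
  unfold opt Uf
  split_ifs
  · rfl
  · rfl

lemma card_pi : (Fintype.piFinset (opt N M)).card = (4 * 2 ^ M.card) ^ (Od n N \ M).card := by
  rw [Fintype.card_piFinset, ← card_Uf, ← prod_opt]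
  exact prod_congr rfl fun p _ => card_opt p

lemma cnt_all (T : Finset (Dt n)) (s : Finset (Fin n → Dt n))
    (hs : ∀ f ∈ s, f ∈ Fintype.piFinset (opt N M) ∧ ∀ d ∈ Od n N \ M, f d ∈ T) :
    s.card ≤ T.card ^ (Od n N \ M).card := by
  have hsub : s ⊆ Fintype.piFinset (fun p => if p ∈ Od n N \ M then T
        else ({(false, false, ∅)} : Finset (Dt n))) := by
    intro f hf
    obtain ⟨h0, h2⟩ := hs f hf
    rw [Fintype.mem_piFinset] at h0 ⊢
    intro p
    have h1 := h0 p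
    unfold opt at h1
    by_cases hp : p ∈ Od n N \ M
    · rw [if_pos hp]
      exact h2 p hp
    · rw [if_neg hp] at h1 ⊢
      exact h1
  refine (card_le_card hsub).trans ?_
  rw [Fintype.card_piFinset]
  calc ∏ p, (if p ∈ Od n N \ M then T else ({(false, false, ∅)} : Finset (Dt n))).card
      ≤ ∏ p : Fin n, if p ∈ Od n N \ M then T.card else 1 := by
        apply prod_le_prod
        · intro p _; exact Nat.zero_le _
        · intro p _
          split_ifs
          · exact le_rfl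
          · exact le_rfl
    _ = _ := prod_opt _

lemma cnt_one (T : Finset (Dt n)) (s : Finset (Fin n → Dt n)) {d : Fin n} (hd : d ∈ Od n N \ M)
    (hs : ∀ f ∈ s, f ∈ Fintype.piFinset (opt N M) ∧ f d ∈ T) :
    s.card ≤ T.card * (4 * 2 ^ M.card) ^ ((Od n N \ M).card - 1) := by
  have hsub : s ⊆ Fintype.piFinset (fun p => if p = d then T else opt N M p) := by
    intro f hf
    obtain ⟨h0, h2⟩ := hs f hf
    rw [Fintype.mem_piFinset] at h0 ⊢
    intro p
    by_cases hp : p = d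
    · rw [if_pos hp, hp]
      exact h2
    · rw [if_neg hp]
      exact h0 p
  refine (card_le_card hsub).trans ?_
  rw [Fintype.card_piFinset, ← mul_prod_erase univ _ (mem_univ d), if_pos rfl]
  apply Nat.mul_le_mul_left
  apply le_of_eq
  calc ∏ p ∈ univ.erase d, (if p = d then T else opt N M p).card
      = ∏ p ∈ univ.erase d, if p ∈ Od n N \ M then (4 * 2 ^ M.card) else 1 := by
        apply prod_congr rfl
        intro p hp
        rw [if_neg (ne_of_mem_erase hp), card_opt, card_Uf]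
    _ = (4 * 2 ^ M.card) ^ ((univ.erase d).filter (fun p => p ∈ Od n N \ M)).card := by
        rw [prod_ite, prod_const, prod_const_one, mul_one]
    _ = _ := by
        congr 1
        rw [← card_erase_of_mem hd]
        congr 1
        ext p
        simp only [mem_filter, mem_erase, mem_univ, and_true]

lemma three (T : Finset (Dt n)) (hT : T ⊆ Uf M) (φ : Finset (Fin n) → Dt n)
    (h1 : ∀ E ⊆ M, φ E ∈ Uf M ∧ φ E ∉ T) (h2 : ∀ E ⊆ M, ∀ E' ⊆ M, φ E = φ E' → E = E') :
    T.card ≤ 3 * 2 ^ M.card := by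
  have h3 : (Uf M \ T).card = (Uf M).card - T.card := card_sdiff_of_subset hT
  have h5 := card_le_card hT
  rw [card_Uf] at h3 h5
  have h4 : 2 ^ M.card ≤ (Uf M \ T).card := by
    rw [← card_powerset]
    apply card_le_card_of_injOn φ
    · intro E hE
      have hE' := mem_powerset.1 (mem_coe.1 hE)
      exact mem_coe.2 (mem_sdiff.2 (h1 E hE'))
    · intro E hE E' hE' he
      exact h2 E (mem_powerset.1 (mem_coe.1 hE)) E' (mem_powerset.1 (mem_coe.1 hE')) he
  omega

lemma mem_Uf' {f : Fin n → Dt n} (hf : f ∈ Fintype.piFinset (opt N M)) {d : Fin n}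
    (hd : d ∈ Od n N \ M) : f d ∈ Uf M := by
  have h1 := Fintype.mem_piFinset.1 hf d
  unfold opt at h1
  rw [if_pos hd] at h1
  exact h1

open Classical in
lemma bad1 : ((Od n N \ M).biUnion (fun d =>
      (Fintype.piFinset (opt N M)).filter (fun f => (f d).2.2 = ∅))).card ≤
      (Od n N \ M).card * (4 * (4 * 2 ^ M.card) ^ ((Od n N \ M).card - 1)) := by
  apply card_biUnion_le_card_mul
  intro d hd
  have h2 : (univ ×ˢ (univ ×ˢ ({∅} : Finset (Finset (Fin n)))) : Finset (Dt n)).card = 4 := by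
    rw [card_product, card_product, card_univ, Fintype.card_bool, card_singleton]
  have h1 := cnt_one (n := n) (N := N) (M := M)
    (univ ×ˢ (univ ×ˢ ({∅} : Finset (Finset (Fin n)))) : Finset (Dt n))
    ((Fintype.piFinset (opt N M)).filter (fun f => (f d).2.2 = ∅)) hd ?_
  · rw [h2] at h1
    exact h1
  · intro f hf
    rw [mem_filter] at hf
    refine ⟨hf.1, ?_⟩
    simp only [mem_product, mem_univ, mem_singleton, true_and]
    exact hf.2

open Classical in
lemma bad2 : ((M ×ˢ M).biUnion (fun z =>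
      (Fintype.piFinset (opt N M)).filter (fun f => ∀ d ∈ Od n N \ M,
        ¬ (z.1 ∈ (f d).2.2 ∧ z.2 ∈ (f d).2.2)))).card ≤
      (M.card * M.card) * (3 * 2 ^ M.card) ^ (Od n N \ M).card := by
  rw [← card_product]
  apply card_biUnion_le_card_mul
  rintro ⟨x, y⟩ hxy
  rw [mem_product] at hxy
  have h0 : ((Uf M).filter (fun w => ¬ (x ∈ w.2.2 ∧ y ∈ w.2.2))).card ≤ 3 * 2 ^ M.card := by
    apply three _ (filter_subset _ _)
      (fun E => (decide (x ∈ E), decide (y ∈ E), insert x (insert y E)))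
    · intro E hE
      constructor
      · unfold Uf
        simp only [mem_product, mem_univ, true_and, mem_powerset]
        exact insert_subset hxy.1 (insert_subset hxy.2 hE)
      · rw [mem_filter]
        intro h
        exact h.2 ⟨mem_insert_self _ _, mem_insert_of_mem (mem_insert_self _ _)⟩
    · intro E _ E' _ he
      simp only [Prod.mk.injEq, decide_eq_decide] at he
      obtain ⟨e1, e2, e3⟩ := he
      ext z
      by_cases h1 : z = x
      · rw [h1]; exact e1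
      by_cases h2 : z = y
      · rw [h2]; exact e2
      have h3 : z ∈ insert x (insert y E) ↔ z ∈ insert x (insert y E') := by rw [e3]
      simpa [h1, h2] using h3
  have h1 := cnt_all (n := n) (N := N) (M := M)
    ((Uf M).filter (fun w => ¬ (x ∈ w.2.2 ∧ y ∈ w.2.2)))
    ((Fintype.piFinset (opt N M)).filter (fun f => ∀ d ∈ Od n N \ M,
        ¬ (x ∈ (f d).2.2 ∧ y ∈ (f d).2.2))) ?_
  · exact h1.trans (Nat.pow_le_pow_left h0 _)
  · intro f hf
    rw [mem_filter] at hf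
    exact ⟨hf.1, fun d hd => mem_filter.2 ⟨mem_Uf' hf.1 hd, hf.2 d hd⟩⟩

open Classical in
lemma bad3 (b : Bool) : ((Fintype.piFinset (opt N M)).filter
      (fun f => ∀ d ∈ Od n N \ M, ¬ ((f d).1 = b ∧ (f d).2.1 = true))).card ≤
      (3 * 2 ^ M.card) ^ (Od n N \ M).card := by
  have h0 : ((Uf M).filter (fun w => ¬ (w.1 = b ∧ w.2.1 = true))).card ≤ 3 * 2 ^ M.card := by
    apply three _ (filter_subset _ _) (fun E => (b, true, E))
    · intro E hE
      constructor
      · unfold Uf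
        simp only [mem_product, mem_univ, true_and, mem_powerset]
        exact hE
      · rw [mem_filter]
        intro h
        exact h.2 ⟨rfl, rfl⟩
    · intro E _ E' _ he
      simpa using he
  have h1 := cnt_all (n := n) (N := N) (M := M)
    ((Uf M).filter (fun w => ¬ (w.1 = b ∧ w.2.1 = true)))
    ((Fintype.piFinset (opt N M)).filter
      (fun f => ∀ d ∈ Od n N \ M, ¬ ((f d).1 = b ∧ (f d).2.1 = true))) ?_
  · exact h1.trans (Nat.pow_le_pow_left h0 _)
  · intro f hf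
    rw [mem_filter] at hf
    exact ⟨hf.1, fun d hd => mem_filter.2 ⟨mem_Uf' hf.1 hd, hf.2 d hd⟩⟩

open Classical in
lemma bad_sub : (Fintype.piFinset (opt N M)).filter (fun f => ¬ Good N M f) ⊆
    ((Od n N \ M).biUnion (fun d =>
      (Fintype.piFinset (opt N M)).filter (fun f => (f d).2.2 = ∅))) ∪
    ((M ×ˢ M).biUnion (fun z =>
      (Fintype.piFinset (opt N M)).filter (fun f => ∀ d ∈ Od n N \ M,
        ¬ (z.1 ∈ (f d).2.2 ∧ z.2 ∈ (f d).2.2)))) ∪
    (((Fintype.piFinset (opt N M)).filter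
      (fun f => ∀ d ∈ Od n N \ M, ¬ ((f d).1 = true ∧ (f d).2.1 = true))) ∪
    ((Fintype.piFinset (opt N M)).filter
      (fun f => ∀ d ∈ Od n N \ M, ¬ ((f d).1 = false ∧ (f d).2.1 = true)))) := by
  intro f hf
  rw [mem_filter] at hf
  obtain ⟨hf1, hf2⟩ := hf
  by_contra hc
  rw [mem_union, mem_union, mem_union, not_or, not_or, not_or] at hc
  obtain ⟨⟨c1, c2⟩, c3, c4⟩ := hc
  apply hf2
  refine ⟨?_, ?_, ?_, ?_⟩
  · intro d hd he
    exact c1 (mem_biUnion.2 ⟨d, hd, mem_filter.2 ⟨hf1, he⟩⟩)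
  · intro x hx y hy
    by_contra hcon
    apply c2
    refine mem_biUnion.2 ⟨(x, y), mem_product.2 ⟨hx, hy⟩, mem_filter.2 ⟨hf1, ?_⟩⟩
    intro d hd hh
    exact hcon ⟨d, hd, hh.1, hh.2⟩
  · by_contra hcon
    exact c3 (mem_filter.2 ⟨hf1, fun d hd hh => hcon ⟨d, hd, hh.1, hh.2⟩⟩)
  · by_contra hcon
    exact c4 (mem_filter.2 ⟨hf1, fun d hd hh => hcon ⟨d, hd, hh.1, hh.2⟩⟩)

open Classical in
lemma bad_le :
    ((Fintype.piFinset (opt N M)).filter (fun f => ¬ Good N M f)).card ≤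
      (Od n N \ M).card * (4 * (4 * 2 ^ M.card) ^ ((Od n N \ M).card - 1)) +
      (M.card ^ 2 + 2) * (3 * 2 ^ M.card) ^ (Od n N \ M).card := by
  refine (card_le_card bad_sub).trans ?_
  refine (card_union_le _ _).trans ?_
  have h1 := (card_union_le ((Od n N \ M).biUnion (fun d =>
      (Fintype.piFinset (opt N M)).filter (fun f => (f d).2.2 = ∅)))
    ((M ×ˢ M).biUnion (fun z =>
      (Fintype.piFinset (opt N M)).filter (fun f => ∀ d ∈ Od n N \ M,
        ¬ (z.1 ∈ (f d).2.2 ∧ z.2 ∈ (f d).2.2))))).trans (add_le_add bad1 bad2)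
  have h2 := (card_union_le ((Fintype.piFinset (opt N M)).filter
      (fun f => ∀ d ∈ Od n N \ M, ¬ ((f d).1 = true ∧ (f d).2.1 = true)))
    ((Fintype.piFinset (opt N M)).filter
      (fun f => ∀ d ∈ Od n N \ M, ¬ ((f d).1 = false ∧ (f d).2.1 = true)))).trans
      (add_le_add (bad3 true) (bad3 false))
  refine (add_le_add h1 h2).trans (le_of_eq ?_)
  ring

end cnt

lemma exp1 (m : ℕ) (hm : 30 ≤ m) : 4 * (m ^ 2 + 2) * 3 ^ m ≤ 4 ^ m := by
  induction m, hm using Nat.le_induction with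
  | base => norm_num
  | succ m hm ih =>
    have h1 : 3 * ((m + 1) ^ 2 + 2) ≤ 4 * (m ^ 2 + 2) := by nlinarith
    calc 4 * ((m + 1) ^ 2 + 2) * 3 ^ (m + 1) = 4 * (3 * ((m + 1) ^ 2 + 2)) * 3 ^ m := by ring
      _ ≤ 4 * (4 * (m ^ 2 + 2)) * 3 ^ m := by gcongr
      _ = 4 * (4 * (m ^ 2 + 2) * 3 ^ m) := by ring
      _ ≤ 4 * 4 ^ m := by gcongr
      _ = 4 ^ (m + 1) := by ring

lemma exp2 (m : ℕ) (hm : 30 ≤ m) : 4 * (m + 1) ≤ 2 ^ m := by
  induction m, hm using Nat.le_induction with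
  | base => norm_num
  | succ m hm ih => rw [pow_succ]; omega

lemma num {m D : ℕ} (hm : 30 ≤ m) (h1 : m ≤ D) (h2 : D ≤ m + 1) :
    2 * (D * (4 * (4 * 2 ^ m) ^ (D - 1)) + (m ^ 2 + 2) * (3 * 2 ^ m) ^ D) ≤ (4 * 2 ^ m) ^ D := by
  obtain ⟨d, rfl⟩ := Nat.exists_eq_add_of_le (show 1 ≤ D by omega)
  have e1 : (4 * 2 ^ m) ^ (1 + d) = 4 * 2 ^ m * (4 * 2 ^ m) ^ d := by rw [pow_add, pow_one]
  have a1 : 4 * ((1 + d) * (4 * (4 * 2 ^ m) ^ (1 + d - 1))) ≤ (4 * 2 ^ m) ^ (1 + d) := by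
    rw [e1, show 1 + d - 1 = d by omega]
    have h3 := exp2 m hm
    calc 4 * ((1 + d) * (4 * (4 * 2 ^ m) ^ d)) = (4 * (1 + d)) * (4 * (4 * 2 ^ m) ^ d) := by ring
      _ ≤ 2 ^ m * (4 * (4 * 2 ^ m) ^ d) := by
        apply Nat.mul_le_mul_right
        omega
      _ = _ := by ring
  have a2 : 4 * ((m ^ 2 + 2) * (3 * 2 ^ m) ^ (1 + d)) ≤ (4 * 2 ^ m) ^ (1 + d) := by
    have h3 := exp1 m hm
    rw [mul_pow, mul_pow]
    obtain ⟨t, ht⟩ := Nat.exists_eq_add_of_le h1
    rw [ht]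
    calc 4 * ((m ^ 2 + 2) * (3 ^ (m + t) * (2 ^ m) ^ (m + t)))
        = (4 * (m ^ 2 + 2) * 3 ^ m) * 3 ^ t * (2 ^ m) ^ (m + t) := by rw [pow_add 3]; ring
      _ ≤ 4 ^ m * 4 ^ t * (2 ^ m) ^ (m + t) := by gcongr; norm_num
      _ = _ := by rw [pow_add 4]
  omega

lemma card_Od {n N : ℕ} (h : N ≤ n) : (Od n N).card = N := by
  have h1 : Od n N = (univ : Finset (Fin N)).image (Fin.castLE h) := by
    ext p
    simp only [Od, mem_filter, mem_univ, true_and, mem_image]
    constructor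
    · intro h
      exact ⟨⟨p, h⟩, rfl⟩
    · rintro ⟨i, rfl⟩
      exact i.2
  rw [h1, card_image_of_injective _ (Fin.castLE_injective h), card_univ, Fintype.card_fin]

open Classical in
lemma good_ge {n N m : ℕ} {M : Finset (Fin n)} (hn : N ≤ n) (hM : M ∈ powersetCard m (Od n N))
    (hm : m = N / 2) (hN : 60 ≤ N) :
    (4 * 2 ^ m) ^ (N - m) ≤
      2 * ((Fintype.piFinset (opt N M)).filter (Good N M)).card := by
  rw [mem_powersetCard] at hM
  have hO := card_Od hn
  have hD : (Od n N \ M).card = N - m := by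
    rw [card_sdiff_of_subset hM.1, hO, hM.2]
  have h1 := card_filter_add_card_filter_not (s := Fintype.piFinset (opt N M)) (Good N M)
  have h2 := bad_le (n := n) (N := N) (M := M)
  have h3 := card_pi (n := n) (N := N) (M := M)
  rw [hD, hM.2] at h2 h3
  have h4 := num (m := m) (D := N - m) (by omega) (by omega) (by omega)
  omega

theorem lower {k : ℕ} (hk : 5 ≤ k) : ∃ n0 : ℕ, ∀ n, n0 ≤ n →
    (2 : ℝ) ^ ((n : ℝ) ^ 2 / 4 + (7 - k) / 2 * n) ≤ 128 * (n + 1) * (a k n : ℝ) := by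
  classical
  refine ⟨60 + k, fun n hn => ?_⟩
  obtain ⟨N, hNdef⟩ : ∃ N, N = n - (k - 3) := ⟨_, rfl⟩
  have hnN : n = N + (k - 3) := by omega
  obtain ⟨m, hm⟩ : ∃ m, m = N / 2 := ⟨_, rfl⟩
  have h1 := le_a (n := n) (N := N) (k := k) (m := m) hk hnN
  have h2 : (powersetCard m (Od n N)).card * (4 * 2 ^ m) ^ (N - m) ≤ 2 * a k n := by
    calc (powersetCard m (Od n N)).card * (4 * 2 ^ m) ^ (N - m)
        = ∑ _M ∈ powersetCard m (Od n N), (4 * 2 ^ m) ^ (N - m) := by
          rw [sum_const, smul_eq_mul]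
      _ ≤ ∑ M ∈ powersetCard m (Od n N),
          2 * ((Fintype.piFinset (opt N M)).filter (Good N M)).card := by
          apply sum_le_sum
          intro M hM
          exact good_ge (by omega) hM hm (by omega)
      _ = 2 * ∑ M ∈ powersetCard m (Od n N),
          ((Fintype.piFinset (opt N M)).filter (Good N M)).card := by rw [mul_sum]
      _ ≤ 2 * a k n := Nat.mul_le_mul_left _ (by convert h1)
  have hO := card_Od (show N ≤ n by omega)
  rw [card_powersetCard, hO] at h2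
  have h3 : 2 ^ N ≤ (N + 1) * N.choose m := by
    rw [← Nat.sum_range_choose]
    calc ∑ i ∈ range (N + 1), N.choose i ≤ ∑ _i ∈ range (N + 1), N.choose m :=
          sum_le_sum fun i _ => by rw [hm]; exact Nat.choose_le_middle i N
      _ = _ := by rw [sum_const, card_range, smul_eq_mul]
  have h4 : 2 ^ N * (4 * 2 ^ m) ^ (N - m) ≤ 2 * (N + 1) * a k n := by
    calc 2 ^ N * (4 * 2 ^ m) ^ (N - m) ≤ ((N + 1) * N.choose m) * (4 * 2 ^ m) ^ (N - m) :=
          Nat.mul_le_mul_right _ h3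
      _ = (N + 1) * (N.choose m * (4 * 2 ^ m) ^ (N - m)) := by ring
      _ ≤ (N + 1) * (2 * a k n) := Nat.mul_le_mul_left _ h2
      _ = _ := by ring
  have h5 : N ^ 2 + 8 * N ≤ 4 * (N + (m + 2) * (N - m)) + 1 := by
    obtain ⟨e, he⟩ : ∃ e, N - m = e := ⟨_, rfl⟩
    have h6 : N = m + e := by omega
    have h7 : e = m ∨ e = m + 1 := by omega
    rw [he, h6]
    rcases h7 with rfl | rfl <;> nlinarith
  have e1 : 2 ^ N * (4 * 2 ^ m) ^ (N - m) = 2 ^ (N + (m + 2) * (N - m)) := by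
    rw [show 4 * 2 ^ m = 2 ^ (m + 2) by ring, ← pow_mul, ← pow_add]
  rw [e1] at h4
  have h6 : (2 : ℝ) ^ (N + (m + 2) * (N - m)) ≤ 2 * (N + 1) * a k n := by exact_mod_cast h4
  have hNr : (N : ℝ) = n - (k - 3) := by
    have : (n : ℝ) = ((N + (k - 3) : ℕ) : ℝ) := by exact_mod_cast hnN
    rw [Nat.cast_add, Nat.cast_sub (show 3 ≤ k by omega)] at this
    push_cast at this
    linarith
  have hk5 : (5 : ℝ) ≤ k := by exact_mod_cast hk
  have h7 : (2 : ℝ) ^ ((n : ℝ) ^ 2 / 4 + (7 - k) / 2 * n) ≤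
      64 * (2 : ℝ) ^ (N + (m + 2) * (N - m)) := by
    have e2 : 64 * (2 : ℝ) ^ (N + (m + 2) * (N - m)) =
        (2 : ℝ) ^ (6 + ((N + (m + 2) * (N - m) : ℕ) : ℝ)) := by
      rw [Real.rpow_add (by norm_num), Real.rpow_natCast]
      norm_num
    rw [e2]
    apply Real.rpow_le_rpow_of_exponent_le (by norm_num)
    have h8 : ((N ^ 2 + 8 * N : ℕ) : ℝ) ≤ ((4 * (N + (m + 2) * (N - m)) + 1 : ℕ) : ℝ) := by
      exact_mod_cast h5
    have h9 : (N : ℝ) ^ 2 + 8 * N ≤ 4 * ((N + (m + 2) * (N - m) : ℕ) : ℝ) + 1 := by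
      have e3 : ((4 * (N + (m + 2) * (N - m)) + 1 : ℕ) : ℝ) =
          4 * ((N + (m + 2) * (N - m) : ℕ) : ℝ) + 1 := by
        rw [Nat.cast_add, Nat.cast_mul]
        norm_num
      rw [e3] at h8
      have e4 : ((N ^ 2 + 8 * N : ℕ) : ℝ) = (N : ℝ) ^ 2 + 8 * N := by
        push_cast; ring
      rw [e4] at h8
      exact h8
    have hn' : (n : ℝ) = N + (k - 3) := by rw [hNr]; ring
    rw [hn']
    nlinarith [sq_nonneg ((k : ℝ) - 7)]
  have hNn : (N : ℝ) ≤ n := by rw [hNr]; linarith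
  calc (2 : ℝ) ^ ((n : ℝ) ^ 2 / 4 + (7 - k) / 2 * n)
      ≤ 64 * (2 : ℝ) ^ (N + (m + 2) * (N - m)) := h7
    _ ≤ 64 * (2 * (N + 1) * a k n) := by gcongr
    _ ≤ 64 * (2 * (n + 1) * a k n) := by gcongr
    _ = _ := by ring

end Pool.Agent.U446.GO
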