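import Mathlib

/-! Labelled graded orders: definitions and the passage between orders and levelled relations. -/

set_option autoImplicit false

namespace Pool.Agent.U446.GO

open Finset

/-- `r` is a (reflexive) partial order on the ground set `Fin n`. -/
def IsOrder {n : ℕ} (r : Fin n → Fin n → Prop) : Prop :=
  (∀ x, r x x) ∧ (∀ x y, r x y → r y x → x = y) ∧ (∀ x y z, r x y → r y z → r x z)

/-- The strict order `p < q`. -/
def Lt {n : ℕ} (r : Fin n → Fin n → Prop) (p q : Fin n) : Prop := r p q ∧ p ≠ q

/-- `q` covers `p`. -/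
def Covers {n : ℕ} (r : Fin n → Fin n → Prop) (p q : Fin n) : Prop :=
  Lt r p q ∧ ¬ ∃ x, Lt r p x ∧ Lt r x q

/-- `g` is a normalised grade map: an order preserving map to the positive integers which
increases by one along covers and takes the value `1` on every component of the comparability
graph. -/
structure IsGrade {n : ℕ} (r : Fin n → Fin n → Prop) (g : Fin n → ℕ) : Prop where
  pos : ∀ p, 1 ≤ g p
  mono : ∀ p q, r p q → g p ≤ g q
  step : ∀ p q, Covers r p q → g q = g p + 1
  norm : ∀ p, ∃ b, Relation.EqvGen r p b ∧ g b = 1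

/-- `r` is a partial order that is graded with exactly `k` grade levels. -/
def GradedWithLevels (k : ℕ) {n : ℕ} (r : Fin n → Fin n → Prop) : Prop :=
  IsOrder r ∧ ∃ g : Fin n → ℕ, IsGrade r g ∧ (Set.range g).ncard = k

/-- The number `a_k(n)` of partial orders on an `n`-element ground set that are graded with exactly
`k` grade levels. -/
noncomputable def a (k n : ℕ) : ℕ :=
  Nat.card {r : Fin n → Fin n → Prop // GradedWithLevels k r}

/-! ### From levelled relations to graded orders -/

section cons

variable {n : ℕ} {R R' : Fin n → Fin n → Prop} {l l' : Fin n → ℕ}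

/-- the order generated by `R` -/
def ord (R : Fin n → Fin n → Prop) : Fin n → Fin n → Prop := Relation.ReflTransGen R

lemma ord_lt (h : ∀ x p, R x p → l x + 1 = l p) {x y : Fin n} (hxy : ord R x y) :
    x = y ∨ l x < l y := by
  induction hxy with
  | refl => exact Or.inl rfl
  | @tail b c _ hbc ih =>
    right
    have := h b c hbc
    rcases ih with h1 | h1
    · subst h1; omega
    · omega

lemma isOrder_ord (h : ∀ x p, R x p → l x + 1 = l p) : IsOrder (ord R) := by
  refine ⟨fun _ => Relation.ReflTransGen.refl, ?_, fun _ _ _ h1 h2 => Relation.ReflTransGen.trans h1 h2⟩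
  intro x y hxy hyx
  rcases ord_lt h hxy with h1 | h1
  · exact h1
  · rcases ord_lt h hyx with h2 | h2
    · exact h2.symm
    · omega

lemma covers_iff (h : ∀ x p, R x p → l x + 1 = l p) (x y : Fin n) :
    Covers (ord R) x y ↔ R x y := by
  constructor
  · rintro ⟨⟨h1, hne⟩, h2⟩
    rcases Relation.ReflTransGen.cases_tail h1 with h3 | ⟨b, h3, h4⟩
    · exact absurd h3.symm hne
    · by_cases hxb : x = b
      · subst hxb; exact h4
      · exfalso
        apply h2
        refine ⟨b, ⟨h3, hxb⟩, ⟨Relation.ReflTransGen.single h4, ?_⟩⟩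
        rintro rfl
        have := h _ _ h4
        omega
  · intro h1
    have h2 := h x y h1
    refine ⟨⟨Relation.ReflTransGen.single h1, by rintro rfl; omega⟩, ?_⟩
    rintro ⟨z, ⟨h3, h4⟩, h5, h6⟩
    rcases ord_lt h h3 with h7 | h7
    · exact h4 h7
    rcases ord_lt h h5 with h8 | h8
    · exact h6 h8
    omega

lemma graded_ord {k : ℕ} (h : ∀ x p, R x p → l x + 1 = l p) {s : Fin n} (hs : l s = 0)
    (hc : ∀ p, Relation.EqvGen R p s) (hk : ∀ p, l p < k) (hk' : ∀ j, j < k → ∃ p, l p = j) :
    GradedWithLevels k (ord R) := by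
  refine ⟨isOrder_ord h, fun p => l p + 1, ⟨fun p => by omega, ?_, ?_, ?_⟩, ?_⟩
  · intro p q hpq
    rcases ord_lt h hpq with h1 | h1
    · subst h1; exact le_rfl
    · show l p + 1 ≤ l q + 1
      omega
  · intro p q hpq
    have := h p q ((covers_iff h p q).1 hpq)
    show l q + 1 = l p + 1 + 1
    omega
  · intro p
    refine ⟨s, ?_, by simp [hs]⟩
    exact (hc p).mono fun a b hab => Relation.ReflTransGen.single hab
  · have : Set.range (fun p => l p + 1) = ((Finset.Icc 1 k : Finset ℕ) : Set ℕ) := by
      ext m
      simp only [Set.mem_range, Finset.coe_Icc, Set.mem_Icc]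
      constructor
      · rintro ⟨p, rfl⟩
        have := hk p
        omega
      · rintro ⟨h1, h4⟩
        obtain ⟨p, hp⟩ := hk' (m - 1) (by omega)
        exact ⟨p, by omega⟩
    rw [this, Set.ncard_coe_finset, Nat.card_Icc]
    omega

lemma rel_eq (h : ∀ x p, R x p → l x + 1 = l p) (h' : ∀ x p, R' x p → l' x + 1 = l' p)
    (e : ord R = ord R') : R = R' := by
  funext x y
  exact propext (by rw [← covers_iff h, ← covers_iff h', e])

lemma lev_eq (h : ∀ x p, R x p → l x + 1 = l p) (h' : ∀ x p, R x p → l' x + 1 = l' p)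
    {s : Fin n} (hs : l s = 0) (hs' : l' s = 0) (hc : ∀ p, Relation.EqvGen R p s) : l = l' := by
  funext p
  have key : ∀ p q, Relation.EqvGen R p q → (l p : ℤ) - l' p = l q - l' q := by
    intro p q hpq
    induction hpq with
    | rel x y hxy =>
      have h1 := h x y hxy
      have h2 := h' x y hxy
      omega
    | refl => rfl
    | symm x y _ ih => exact ih.symm
    | trans x y z _ _ ih1 ih2 => exact ih1.trans ih2
  have := key p s (hc p)
  rw [hs, hs'] at this
  omega

end cons

/-! ### From graded orders to levelled relations -/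

section levels

variable {n : ℕ} {r : Fin n → Fin n → Prop}

lemma reach (h : IsOrder r) {x y : Fin n} (hxy : r x y) :
    Relation.ReflTransGen (Covers r) x y := by
  classical
  have key : ∀ (m : ℕ) (x y : Fin n), (univ.filter (fun z => r x z ∧ r z y)).card ≤ m → r x y →
      Relation.ReflTransGen (Covers r) x y := by
    intro m
    induction m with
    | zero =>
      intro x y hm hxy
      exfalso
      have : x ∈ univ.filter (fun z => r x z ∧ r z y) := by simp [h.1 x, hxy]
      have := card_pos.2 ⟨x, this⟩
      omega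
    | succ m ih =>
      intro x y hm hxy
      by_cases hne : x = y
      · subst hne; exact Relation.ReflTransGen.refl
      by_cases hc : ∃ z, Lt r x z ∧ Lt r z y
      · obtain ⟨z, ⟨h1, h2⟩, h3, h4⟩ := hc
        refine (ih x z ?_ h1).trans (ih z y ?_ h3)
        · refine Nat.le_of_lt_succ (lt_of_lt_of_le (card_lt_card ?_) hm)
          refine ⟨fun w hw => ?_, fun hsub => ?_⟩
          · simp only [mem_filter, mem_univ, true_and] at hw ⊢
            exact ⟨hw.1, h.2.2 _ _ _ hw.2 h3⟩
          · have hy : y ∈ univ.filter (fun w => r x w ∧ r w z) := hsub (by simp [hxy, h.1 y])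
            simp only [mem_filter, mem_univ, true_and] at hy
            exact h4 (h.2.1 _ _ h3 hy.2)
        · refine Nat.le_of_lt_succ (lt_of_lt_of_le (card_lt_card ?_) hm)
          refine ⟨fun w hw => ?_, fun hsub => ?_⟩
          · simp only [mem_filter, mem_univ, true_and] at hw ⊢
            exact ⟨h.2.2 _ _ _ h1 hw.1, hw.2⟩
          · have hy : x ∈ univ.filter (fun w => r z w ∧ r w y) := hsub (by simp [hxy, h.1 x])
            simp only [mem_filter, mem_univ, true_and] at hy
            exact h2 (h.2.1 _ _ h1 hy.1)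
      · exact Relation.ReflTransGen.single ⟨⟨hxy, hne⟩, hc⟩
  exact key _ x y le_rfl hxy

lemma order_eq {r' : Fin n → Fin n → Prop} (h : IsOrder r) (h' : IsOrder r')
    (e : ∀ x y, Covers r x y ↔ Covers r' x y) : r = r' := by
  have key : ∀ (r r' : Fin n → Fin n → Prop), IsOrder r → IsOrder r' →
      (∀ x y, Covers r x y ↔ Covers r' x y) → ∀ x y, r x y → r' x y := by
    intro r r' h h' e x y hxy
    have h1 := reach h hxy
    induction h1 with
    | refl => exact h'.1 _
    | @tail b c _ hbc ih =>
      have h2 := (e b c).1 hbc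
      rename_i h3
      refine h'.2.2 _ _ _ (ih ?_) h2.1.1
      clear ih
      have h4 : ∀ u v, Relation.ReflTransGen (Covers r) u v → r u v := by
        intro u v huv
        induction huv with
        | refl => exact h.1 _
        | tail _ h5 ih => exact h.2.2 _ _ _ ih h5.1.1
      exact h4 _ _ h3
  funext x y
  exact propext ⟨key r r' h h' e x y, key r' r h' h (fun x y => (e x y).symm) x y⟩

lemma between (h : IsOrder r) {g : Fin n → ℕ} (hg : IsGrade r g) {x y : Fin n} (hxy : r x y)
    {v : ℕ} (h1 : g x ≤ v) (h2 : v ≤ g y) : ∃ z, g z = v := by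
  have h3 := reach h hxy
  clear hxy
  induction h3 with
  | refl => exact ⟨x, by omega⟩
  | @tail b c _ hbc ih =>
    by_cases h4 : v ≤ g b
    · exact ih h4
    · have := hg.step b c hbc
      exact ⟨c, by omega⟩

lemma attained (h : IsOrder r) {g : Fin n → ℕ} (hg : IsGrade r g) {p : Fin n} {v : ℕ}
    (h1 : 1 ≤ v) (h2 : v ≤ g p) : ∃ z, g z = v := by
  by_contra hcon
  push Not at hcon
  have key : ∀ x y, Relation.EqvGen r x y → (v ≤ g x ↔ v ≤ g y) := by
    intro x y hxy
    induction hxy with
    | rel x y hxy =>
      constructor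
      · intro h3; exact h3.trans (hg.mono x y hxy)
      · intro h3
        by_contra h4
        obtain ⟨z, hz⟩ := between h hg hxy (v := v) (by omega) h3
        exact hcon z hz
    | refl => rfl
    | symm x y _ ih => exact ih.symm
    | trans x y z _ _ ih1 ih2 => exact ih1.trans ih2
  obtain ⟨b, hb, hb1⟩ := hg.norm p
  have h3 := (key p b hb).1 h2
  rw [hb1] at h3
  exact hcon b (by omega)

/-- a graded order has a surjective level function -/
lemma exists_level {k : ℕ} (hr : GradedWithLevels k r) :
    ∃ l : Fin n → Fin k, Function.Surjective l ∧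
      ∀ x y, Covers r x y → (l x : ℕ) + 1 = l y := by
  classical
  obtain ⟨h, g, hg, hk⟩ := hr
  have himg : (Set.range g).ncard = (univ.image g).card := by
    rw [← Set.ncard_coe_finset]
    congr 1
    ext; simp
  have hle : ∀ p, g p ≤ k := by
    intro p
    have : Finset.Icc 1 (g p) ⊆ univ.image g := by
      intro v hv
      rw [Finset.mem_Icc] at hv
      obtain ⟨z, hz⟩ := attained h hg hv.1 hv.2
      exact mem_image.2 ⟨z, mem_univ _, hz⟩
    have h1 := card_le_card this
    rw [Nat.card_Icc, ← himg, hk] at h1
    omega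
  have himg2 : univ.image g = Finset.Icc 1 k := by
    apply Finset.eq_of_subset_of_card_le
    · intro v hv
      obtain ⟨p, -, rfl⟩ := mem_image.1 hv
      exact Finset.mem_Icc.2 ⟨hg.pos p, hle p⟩
    · rw [Nat.card_Icc, ← himg, hk]
      omega
  have hlt : ∀ p, g p - 1 < k := fun p => by
    have := hle p
    have := hg.pos p
    omega
  refine ⟨fun p => ⟨g p - 1, hlt p⟩, ?_, ?_⟩
  · intro j
    have : (j : ℕ) + 1 ∈ univ.image g := by
      rw [himg2, Finset.mem_Icc]
      have := j.2
      omega
    obtain ⟨p, -, hp⟩ := mem_image.1 this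
    exact ⟨p, Fin.ext (by show g p - 1 = j; omega)⟩
  · intro x y hxy
    have h1 := hg.step x y hxy
    have h2 := hg.pos x
    show g x - 1 + 1 = g y - 1
    omega

end levels

end Pool.Agent.U446.GO
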