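import Pool.Agent.U446.GO.Defs

/-! Lower bound, first part: the construction. -/

set_option autoImplicit false

namespace Pool.Agent.U446.GO

open Finset

section low

variable {n : ℕ}

/-- the ordinary elements -/
def Od (n N : ℕ) : Finset (Fin n) := univ.filter (fun p => (p : ℕ) < N)

/-- the choices of an ordinary element outside `M`: below or above `M`, joined to the special
element or not, and the set of neighbours in `M` -/
abbrev Dt (n : ℕ) : Type := Bool × Bool × Finset (Fin n)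

/-- the possible choices -/
def opt (N : ℕ) (M : Finset (Fin n)) (p : Fin n) : Finset (Dt n) :=
  if p ∈ Od n N \ M then univ ×ˢ (univ ×ˢ M.powerset) else {(false, false, ∅)}

/-- the level -/
def lv (N : ℕ) (M : Finset (Fin n)) (f : Fin n → Dt n) (p : Fin n) : ℕ :=
  if (p : ℕ) < N then (if p ∈ M then 2 else if (f p).1 = true then 1 else 3)
  else if (p : ℕ) = N then 0 else (p : ℕ) - N + 3

/-- the covering relation -/
def Rl (N : ℕ) (M : Finset (Fin n)) (f : Fin n → Dt n) (x p : Fin n) : Prop :=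
  (p ∈ M ∧ x ∈ Od n N \ M ∧ (f x).1 = true ∧ p ∈ (f x).2.2) ∨
  (x ∈ M ∧ p ∈ Od n N \ M ∧ (f p).1 = false ∧ x ∈ (f p).2.2) ∨
  ((x : ℕ) = N ∧ p ∈ Od n N \ M ∧ (f p).1 = true ∧ (f p).2.1 = true) ∨
  ((p : ℕ) = N + 1 ∧ x ∈ Od n N \ M ∧ (f x).1 = false ∧ (f x).2.1 = true) ∨
  (N + 1 ≤ (x : ℕ) ∧ (p : ℕ) = x + 1)

/-- the data for which the order is connected -/
structure Good (N : ℕ) (M : Finset (Fin n)) (f : Fin n → Dt n) : Prop where
  ne : ∀ d ∈ Od n N \ M, (f d).2.2 ≠ ∅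
  pair : ∀ x ∈ M, ∀ y ∈ M, ∃ d ∈ Od n N \ M, x ∈ (f d).2.2 ∧ y ∈ (f d).2.2
  lo : ∃ d ∈ Od n N \ M, (f d).1 = true ∧ (f d).2.1 = true
  hi : ∃ d ∈ Od n N \ M, (f d).1 = false ∧ (f d).2.1 = true

variable {N : ℕ} {M : Finset (Fin n)} {f : Fin n → Dt n}

lemma mem_sd {p : Fin n} : p ∈ Od n N \ M ↔ (p : ℕ) < N ∧ p ∉ M := by
  simp [Od, mem_sdiff]

lemma lv_M (hM : M ⊆ Od n N) {p : Fin n} (hp : p ∈ M) : lv N M f p = 2 := by
  have h1 : (p : ℕ) < N := (mem_filter.1 (hM hp)).2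
  unfold lv
  rw [if_pos h1, if_pos hp]

lemma lv_lo {p : Fin n} (hp : p ∈ Od n N \ M) (h : (f p).1 = true) : lv N M f p = 1 := by
  rw [mem_sd] at hp
  unfold lv
  rw [if_pos hp.1, if_neg hp.2, if_pos h]

lemma lv_hi {p : Fin n} (hp : p ∈ Od n N \ M) (h : (f p).1 = false) : lv N M f p = 3 := by
  rw [mem_sd] at hp
  unfold lv
  rw [if_pos hp.1, if_neg hp.2, if_neg (by simp [h])]

lemma lv_sp {p : Fin n} (hp : N + 1 ≤ (p : ℕ)) : lv N M f p = p - N + 3 := by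
  unfold lv
  rw [if_neg (by omega), if_neg (by omega)]

lemma lv_z {p : Fin n} (hp : (p : ℕ) = N) : lv N M f p = 0 := by
  unfold lv
  rw [if_neg (by omega), if_pos hp]

lemma Rl_lv (hM : M ⊆ Od n N) (x p : Fin n) (h : Rl N M f x p) :
    lv N M f x + 1 = lv N M f p := by
  rcases h with ⟨h1, h2, h3, -⟩ | ⟨h1, h2, h3, -⟩ | ⟨h1, h2, h3, -⟩ | ⟨h1, h2, h3, -⟩ | ⟨h1, h2⟩
  · rw [lv_lo h2 h3, lv_M hM h1]
  · rw [lv_M hM h1, lv_hi h2 h3]
  · rw [lv_z h1, lv_lo h2 h3]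
  · rw [lv_hi h2 h3, lv_sp (by omega)]
    omega
  · rw [lv_sp h1, lv_sp (by omega)]
    omega

lemma edge {d x : Fin n} (hd : d ∈ Od n N \ M) (hx : x ∈ M) (h : x ∈ (f d).2.2) :
    Relation.EqvGen (Rl N M f) d x := by
  rcases hb : (f d).1 with _ | _
  · exact Relation.EqvGen.symm _ _ (Relation.EqvGen.rel _ _ (Or.inr (Or.inl ⟨hx, hd, hb, h⟩)))
  · exact Relation.EqvGen.rel _ _ (Or.inl ⟨hx, hd, hb, h⟩)

lemma conn (hM : M ⊆ Od n N) (hf : ∀ d ∈ Od n N \ M, (f d).2.2 ⊆ M) (hg : Good N M f)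
    {s : Fin n} (hs : (s : ℕ) = N) (p : Fin n) : Relation.EqvGen (Rl N M f) p s := by
  obtain ⟨d0, hd0, h1, h2⟩ := hg.lo
  have e0 : Relation.EqvGen (Rl N M f) d0 s :=
    Relation.EqvGen.symm _ _ (Relation.EqvGen.rel _ _ (Or.inr (Or.inr (Or.inl ⟨hs, hd0, h1, h2⟩))))
  obtain ⟨x0, hx0⟩ := Finset.nonempty_iff_ne_empty.2 (hg.ne d0 hd0)
  have hx0M := hf d0 hd0 hx0
  have e1 : Relation.EqvGen (Rl N M f) x0 s :=
    (Relation.EqvGen.symm _ _ (edge hd0 hx0M hx0)).trans _ _ _ e0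
  have e2 : ∀ x ∈ M, Relation.EqvGen (Rl N M f) x s := by
    intro x hx
    obtain ⟨d, hd, h3, h4⟩ := hg.pair x hx x0 hx0M
    exact ((Relation.EqvGen.symm _ _ (edge hd hx h3)).trans _ _ _ (edge hd hx0M h4)).trans _ _ _ e1
  have e3 : ∀ d ∈ Od n N \ M, Relation.EqvGen (Rl N M f) d s := by
    intro d hd
    obtain ⟨x, hx⟩ := Finset.nonempty_iff_ne_empty.2 (hg.ne d hd)
    have hxM := hf d hd hx
    exact (edge hd hxM hx).trans _ _ _ (e2 x hxM)
  have e4 : ∀ (j : ℕ) (p : Fin n), (p : ℕ) = N + 1 + j → Relation.EqvGen (Rl N M f) p s := by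
    intro j
    induction j with
    | zero =>
      intro p hp
      obtain ⟨d1, hd1, h3, h4⟩ := hg.hi
      refine (Relation.EqvGen.symm _ _ (Relation.EqvGen.rel _ _ ?_)).trans _ _ _ (e3 d1 hd1)
      exact Or.inr (Or.inr (Or.inr (Or.inl ⟨by omega, hd1, h3, h4⟩)))
    | succ j ih =>
      intro p hp
      have hlt : N + 1 + j < n := by have := p.2; omega
      refine (Relation.EqvGen.symm _ _ (Relation.EqvGen.rel _ _ ?_)).trans _ _ _
        (ih ⟨N + 1 + j, hlt⟩ rfl)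
      refine Or.inr (Or.inr (Or.inr (Or.inr ⟨?_, ?_⟩)))
      · show N + 1 ≤ N + 1 + j
        omega
      · show (p : ℕ) = N + 1 + j + 1
        omega
  by_cases h3 : (p : ℕ) < N
  · by_cases h4 : p ∈ M
    · exact e2 p h4
    · exact e3 p (mem_sd.2 ⟨h3, h4⟩)
  · by_cases h4 : (p : ℕ) = N
    · have : p = s := Fin.ext (by omega)
      rw [this]
      exact Relation.EqvGen.refl _
    · exact e4 (p - (N + 1)) p (by omega)

lemma graded {k : ℕ} (hk : 5 ≤ k) (hn : n = N + (k - 3)) (hM : M ⊆ Od n N)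
    (hf : ∀ d ∈ Od n N \ M, (f d).2.2 ⊆ M) (hg : Good N M f) :
    GradedWithLevels k (ord (Rl N M f)) := by
  have hs : N < n := by omega
  refine graded_ord (Rl_lv hM) (s := ⟨N, hs⟩) (lv_z rfl) (conn hM hf hg rfl) ?_ ?_
  · intro p
    have := p.2
    unfold lv
    split_ifs <;> omega
  · intro j hj
    obtain ⟨d0, hd0, h1, h2⟩ := hg.lo
    obtain ⟨d1, hd1, h3, h4⟩ := hg.hi
    obtain ⟨x0, hx0⟩ := Finset.nonempty_iff_ne_empty.2 (hg.ne d0 hd0)
    have hx0M := hf d0 hd0 hx0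
    rcases Nat.lt_or_ge j 4 with h5 | h5
    · interval_cases j
      · exact ⟨⟨N, hs⟩, lv_z rfl⟩
      · exact ⟨d0, lv_lo hd0 h1⟩
      · exact ⟨x0, lv_M hM hx0M⟩
      · exact ⟨d1, lv_hi hd1 h3⟩
    · refine ⟨⟨N + (j - 3), by omega⟩, ?_⟩
      rw [lv_sp (by show N + 1 ≤ N + (j - 3); omega)]
      show N + (j - 3) - N + 3 = j
      omega

lemma mem_opt {p : Fin n} {w : Dt n} (hp : p ∈ Od n N \ M) :
    w ∈ opt N M p ↔ w.2.2 ⊆ M := by
  unfold opt
  rw [if_pos hp]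
  simp [mem_product]

lemma opt_sub (hf : f ∈ Fintype.piFinset (opt N M)) : ∀ d ∈ Od n N \ M, (f d).2.2 ⊆ M := by
  intro d hd
  exact (mem_opt hd).1 (Fintype.mem_piFinset.1 hf d)

lemma inj {M' : Finset (Fin n)} {f' : Fin n → Dt n} {k : ℕ} (hk : 5 ≤ k) (hn : n = N + (k - 3))
    (hM : M ⊆ Od n N) (hM' : M' ⊆ Od n N) (hf : f ∈ Fintype.piFinset (opt N M))
    (hf' : f' ∈ Fintype.piFinset (opt N M')) (hg : Good N M f)
    (e : ord (Rl N M f) = ord (Rl N M' f')) : M = M' ∧ f = f' := by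
  have hs : N < n := by omega
  have hs1 : N + 1 < n := by omega
  have hR : Rl N M f = Rl N M' f' := rel_eq (Rl_lv hM) (Rl_lv hM') e
  have hl : lv N M f = lv N M' f' :=
    lev_eq (Rl_lv hM) (by rw [hR]; exact Rl_lv hM') (s := ⟨N, hs⟩) (lv_z rfl) (lv_z rfl)
      (conn hM (opt_sub hf) hg rfl)
  have hMM : M = M' := by
    ext p
    constructor
    · intro hp
      have h1 := lv_M (f := f) hM hp
      rw [hl] at h1
      by_contra hc
      have h2 : p ∈ Od n N \ M' := mem_sdiff.2 ⟨hM hp, hc⟩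
      rcases hb : (f' p).1 with _ | _
      · rw [lv_hi h2 hb] at h1; omega
      · rw [lv_lo h2 hb] at h1; omega
    · intro hp
      have h1 := lv_M (f := f') hM' hp
      rw [← hl] at h1
      by_contra hc
      have h2 : p ∈ Od n N \ M := mem_sdiff.2 ⟨hM' hp, hc⟩
      rcases hb : (f p).1 with _ | _
      · rw [lv_hi h2 hb] at h1; omega
      · rw [lv_lo h2 hb] at h1; omega
  subst hMM
  refine ⟨rfl, ?_⟩
  have hRp : ∀ x p, Rl N M f x p ↔ Rl N M f' x p := fun x p => by rw [hR]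
  funext p
  by_cases hp : p ∈ Od n N \ M
  · have hpv := mem_sd.1 hp
    have h1 : (f p).1 = (f' p).1 := by
      rcases hb : (f p).1 with _ | _ <;> rcases hb' : (f' p).1 with _ | _
      · rfl
      · have g1 := lv_hi hp hb
        rw [hl, lv_lo hp hb'] at g1
        omega
      · have g1 := lv_lo hp hb
        rw [hl, lv_hi hp hb'] at g1
        omega
      · rfl
    have key0 : ∀ g : Fin n → Dt n, (g p).1 = true →
        (Rl N M g ⟨N, hs⟩ p ↔ (g p).2.1 = true) := by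
      intro g hg1
      constructor
      · rintro (⟨-, h2, -, -⟩ | ⟨h2, -, -, -⟩ | ⟨-, -, -, h2⟩ | ⟨h2, -, -, -⟩ | ⟨h2, -⟩)
        · rw [mem_sd] at h2; exact absurd h2.1 (lt_irrefl N)
        · have := (mem_filter.1 (hM h2)).2; exact absurd this (lt_irrefl N)
        · exact h2
        · omega
        · exact absurd h2 (by show ¬ N + 1 ≤ N; omega)
      · intro h2
        exact Or.inr (Or.inr (Or.inl ⟨rfl, hp, hg1, h2⟩))
    have key1 : ∀ g : Fin n → Dt n, (g p).1 = false →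
        (Rl N M g p ⟨N + 1, hs1⟩ ↔ (g p).2.1 = true) := by
      intro g hg1
      constructor
      · rintro (⟨h2, -, -, -⟩ | ⟨-, h2, -, -⟩ | ⟨h2, -, -, -⟩ | ⟨-, -, -, h2⟩ | ⟨h2, -⟩)
        · have := (mem_filter.1 (hM h2)).2; exact absurd this (by show ¬ N + 1 < N; omega)
        · rw [mem_sd] at h2; exact absurd h2.1 (by show ¬ N + 1 < N; omega)
        · omega
        · exact h2
        · omega
      · intro h2
        exact Or.inr (Or.inr (Or.inr (Or.inl ⟨rfl, hp, hg1, h2⟩)))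
    have key2 : ∀ g : Fin n → Dt n, (g p).1 = true → (g p).2.2 ⊆ M → ∀ y,
        (y ∈ M ∧ Rl N M g p y ↔ y ∈ (g p).2.2) := by
      intro g hg1 hg2 y
      constructor
      · rintro ⟨hy, ⟨-, -, -, h2⟩ | ⟨h2, -, -, -⟩ | ⟨h2, -, -, -⟩ | ⟨h2, -, -, -⟩ | ⟨h2, -⟩⟩
        · exact h2
        · exact absurd h2 hpv.2
        · omega
        · have := (mem_filter.1 (hM hy)).2; omega
        · omega
      · intro h2
        exact ⟨hg2 h2, Or.inl ⟨hg2 h2, hp, hg1, h2⟩⟩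
    have key3 : ∀ g : Fin n → Dt n, (g p).1 = false → (g p).2.2 ⊆ M → ∀ y,
        (y ∈ M ∧ Rl N M g y p ↔ y ∈ (g p).2.2) := by
      intro g hg1 hg2 y
      constructor
      · rintro ⟨hy, ⟨h2, -, -, -⟩ | ⟨-, -, -, h2⟩ | ⟨h2, -, -, -⟩ | ⟨h2, -, -, -⟩ | ⟨h2, -⟩⟩
        · exact absurd h2 hpv.2
        · exact h2
        · have := (mem_filter.1 (hM hy)).2; omega
        · omega
        · have := (mem_filter.1 (hM hy)).2; omega
      · intro h2
        exact ⟨hg2 h2, Or.inr (Or.inl ⟨hg2 h2, hp, hg1, h2⟩)⟩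
    have s1 := opt_sub hf p hp
    have s2 := opt_sub hf' p hp
    have h2 : (f p).2.1 = (f' p).2.1 := by
      rw [Bool.eq_iff_iff]
      rcases hb : (f p).1 with _ | _
      · rw [← key1 f hb, ← key1 f' (by rw [← h1, hb])]
        exact hRp _ _
      · rw [← key0 f hb, ← key0 f' (by rw [← h1, hb])]
        exact hRp _ _
    have h3 : (f p).2.2 = (f' p).2.2 := by
      ext y
      rcases hb : (f p).1 with _ | _
      · rw [← key3 f hb s1, ← key3 f' (by rw [← h1, hb]) s2, hRp]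
      · rw [← key2 f hb s1, ← key2 f' (by rw [← h1, hb]) s2, hRp]
    exact Prod.ext h1 (Prod.ext h2 h3)
  · have g1 := Fintype.mem_piFinset.1 hf p
    have g2 := Fintype.mem_piFinset.1 hf' p
    unfold opt at g1 g2
    rw [if_neg hp, mem_singleton] at g1 g2
    rw [g1, g2]

open Classical in
/-- the number of the good data is a lower bound -/
theorem le_a {k m : ℕ} (hk : 5 ≤ k) (hn : n = N + (k - 3)) :
    ∑ M ∈ powersetCard m (Od n N), ((Fintype.piFinset (opt N M)).filter (Good N M)).card ≤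
      a k n := by
  rw [← card_sigma, ← Fintype.card_coe, ← Nat.card_eq_fintype_card]
  unfold a
  have hmem : ∀ d : ((powersetCard m (Od n N)).sigma
      (fun M => (Fintype.piFinset (opt N M)).filter (Good N M))), d.1.1 ⊆ Od n N ∧
      d.1.2 ∈ Fintype.piFinset (opt N d.1.1) ∧ Good N d.1.1 d.1.2 := by
    intro d
    have h := d.2
    rw [mem_sigma, mem_filter] at h
    exact ⟨(mem_powersetCard.1 h.1).1, h.2.1, h.2.2⟩
  refine Nat.card_le_card_of_injective (fun d => ⟨ord (Rl N d.1.1 d.1.2),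
    graded hk hn (hmem d).1 (opt_sub (hmem d).2.1) (hmem d).2.2⟩) ?_
  intro d d' hdd
  have e : ord (Rl N d.1.1 d.1.2) = ord (Rl N d'.1.1 d'.1.2) := congrArg Subtype.val hdd
  obtain ⟨h1, h2⟩ := inj hk hn (hmem d).1 (hmem d').1 (hmem d).2.1 (hmem d').2.1 (hmem d).2.2 e
  obtain ⟨⟨A, g⟩, hd⟩ := d
  obtain ⟨⟨A', g'⟩, hd'⟩ := d'
  simp only at h1 h2
  subst h1 h2
  rfl

end low

end Pool.Agent.U446.GO
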