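import Pool.Agent.U446.GO.Defs

/-! Upper bound, first part: level functions with representatives removed. -/

set_option autoImplicit false

namespace Pool.Agent.U446.GO

open Finset

section

variable {α : Type} [Fintype α] [DecidableEq α] {k : ℕ}

/-- pairs of elements on consecutive levels -/
def adjP (l : α → Fin k) : Finset (α × α) := univ.filter (fun p => (l p.1 : ℕ) + 1 = l p.2)

/-- the number of pairs of elements on consecutive levels -/
def adj (l : α → Fin k) : ℕ := (adjP l).card

end

theorem a_le (k n : ℕ) :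
    a k n ≤ ∑ l ∈ univ.filter (fun l : Fin n → Fin k => Function.Surjective l), 2 ^ adj l := by
  classical
  have h1 : ∑ l ∈ univ.filter (fun l : Fin n → Fin k => Function.Surjective l), 2 ^ adj l =
      ((univ.filter (fun l : Fin n → Fin k => Function.Surjective l)).sigma
        (fun l => (adjP l).powerset)).card := by
    rw [card_sigma]
    apply sum_congr rfl
    intro l _
    rw [card_powerset]
    rfl
  rw [h1, ← Fintype.card_coe, ← Nat.card_eq_fintype_card]
  unfold a
  choose L hL1 hL2 using fun (r : {r : Fin n → Fin n → Prop // GradedWithLevels k r}) =>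
    exists_level r.2
  refine Nat.card_le_card_of_injective (fun r => ⟨⟨L r,
    univ.filter (fun p : Fin n × Fin n => Covers r.1 p.1 p.2)⟩, ?_⟩) ?_
  · rw [mem_sigma]
    refine ⟨by simpa using hL1 r, ?_⟩
    rw [mem_powerset]
    intro p hp
    rw [mem_filter] at hp
    exact mem_filter.2 ⟨mem_univ _, hL2 r _ _ hp.2⟩
  · intro r r' h
    have h2 := congrArg (fun z => z.1.2) h
    simp only at h2
    apply Subtype.ext
    apply order_eq r.2.1 r'.2.1
    intro x y
    have h3 : ((x, y) ∈ univ.filter (fun p : Fin n × Fin n => Covers r.1 p.1 p.2)) ↔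
        ((x, y) ∈ univ.filter (fun p : Fin n × Fin n => Covers r'.1 p.1 p.2)) := by rw [h2]
    simpa using h3

section rep

variable {n k : ℕ}

lemma adj_restrict {l : Fin n → Fin k} {ρ : Fin k → Fin n} (h : ∀ i, l (ρ i) = i) {N : ℕ}
    (hN : Fintype.card {x : Fin n // x ∉ Set.range ρ} = N) :
    adj l ≤ k + 2 * N + adj (fun x : {x : Fin n // x ∉ Set.range ρ} => l x) := by
  classical
  have hr : ∀ x, x ∈ Set.range ρ → x = ρ (l x) := by
    rintro x ⟨i, rfl⟩
    rw [h]
  have hcard : (univ.filter (fun x : Fin n => x ∉ Set.range ρ)).card = N := by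
    rw [← hN, Fintype.card_subtype]
  set I1 := (adjP l).filter (fun p => p.1 ∈ Set.range ρ ∧ p.2 ∈ Set.range ρ)
  set I2 := (adjP l).filter (fun p => p.1 ∈ Set.range ρ ∧ p.2 ∉ Set.range ρ)
  set I3 := (adjP l).filter (fun p => p.1 ∉ Set.range ρ ∧ p.2 ∈ Set.range ρ)
  set I4 := (adjP l).filter (fun p => p.1 ∉ Set.range ρ ∧ p.2 ∉ Set.range ρ)
  have hsub : adjP l ⊆ I1 ∪ I2 ∪ I3 ∪ I4 := by
    intro p hp
    simp only [I1, I2, I3, I4, mem_union, mem_filter]
    by_cases h1 : p.1 ∈ Set.range ρ <;> by_cases h2 : p.2 ∈ Set.range ρ <;> simp [hp, h1, h2]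
  have ha : ∀ p ∈ adjP l, (l p.1 : ℕ) + 1 = l p.2 := fun p hp => (mem_filter.1 hp).2
  have c1 : I1.card ≤ k := by
    have : I1.card ≤ (univ : Finset (Fin k)).card := by
      apply card_le_card_of_injOn (fun p => l p.1) (fun _ _ => mem_univ _)
      intro p hp q hq hpq
      have hp' := mem_filter.1 (mem_coe.1 hp)
      have hq' := mem_filter.1 (mem_coe.1 hq)
      simp only at hpq
      have e1 : p.1 = q.1 := by rw [hr _ hp'.2.1, hr _ hq'.2.1, hpq]
      have e2 : l p.2 = l q.2 := by
        apply Fin.ext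
        rw [← ha _ hp'.1, ← ha _ hq'.1, hpq]
      have e3 : p.2 = q.2 := by rw [hr _ hp'.2.2, hr _ hq'.2.2, e2]
      exact Prod.ext e1 e3
    simpa using this
  have c2 : I2.card ≤ N := by
    rw [← hcard]
    apply card_le_card_of_injOn (fun p => p.2)
    · intro p hp
      have hp' := mem_filter.1 (mem_coe.1 hp)
      exact mem_coe.2 (mem_filter.2 ⟨mem_univ _, hp'.2.2⟩)
    · intro p hp q hq hpq
      have hp' := mem_filter.1 (mem_coe.1 hp)
      have hq' := mem_filter.1 (mem_coe.1 hq)
      simp only at hpq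
      have e2 : l p.1 = l q.1 := by
        apply Fin.ext
        have h1 := ha _ hp'.1
        have h2 := ha _ hq'.1
        rw [hpq] at h1
        omega
      have e1 : p.1 = q.1 := by rw [hr _ hp'.2.1, hr _ hq'.2.1, e2]
      exact Prod.ext e1 hpq
  have c3 : I3.card ≤ N := by
    rw [← hcard]
    apply card_le_card_of_injOn (fun p => p.1)
    · intro p hp
      have hp' := mem_filter.1 (mem_coe.1 hp)
      exact mem_coe.2 (mem_filter.2 ⟨mem_univ _, hp'.2.1⟩)
    · intro p hp q hq hpq
      have hp' := mem_filter.1 (mem_coe.1 hp)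
      have hq' := mem_filter.1 (mem_coe.1 hq)
      simp only at hpq
      have e2 : l p.2 = l q.2 := by
        apply Fin.ext
        have h1 := ha _ hp'.1
        have h2 := ha _ hq'.1
        rw [hpq] at h1
        omega
      have e1 : p.2 = q.2 := by rw [hr _ hp'.2.2, hr _ hq'.2.2, e2]
      exact Prod.ext hpq e1
  have c4 : I4.card ≤ adj (fun x : {x : Fin n // x ∉ Set.range ρ} => l x) := by
    unfold adj
    have : I4 ⊆ (adjP (fun x : {x : Fin n // x ∉ Set.range ρ} => l x)).image
        (fun p => ((p.1 : Fin n), (p.2 : Fin n))) := by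
      intro p hp
      have hp' := mem_filter.1 hp
      rw [mem_image]
      exact ⟨(⟨p.1, hp'.2.1⟩, ⟨p.2, hp'.2.2⟩), mem_filter.2 ⟨mem_univ _, ha _ hp'.1⟩, rfl⟩
    exact (card_le_card this).trans card_image_le
  have h5 := card_le_card hsub
  have h6 := card_union_le (I1 ∪ I2 ∪ I3) I4
  have h7 := card_union_le (I1 ∪ I2) I3
  have h8 := card_union_le I1 I2
  have h9 : adj l = (adjP l).card := rfl
  omega

theorem surj_le {B : ℕ} (hB : ∀ (β : Type) [Fintype β] [DecidableEq β],
    Fintype.card β = n - k → ∑ l : β → Fin k, 2 ^ adj l ≤ B) :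
    ∑ l ∈ univ.filter (fun l : Fin n → Fin k => Function.Surjective l), 2 ^ adj l ≤
      n ^ k * (2 ^ (k + 2 * (n - k)) * B) := by
  classical
  have h1 : ∑ l ∈ univ.filter (fun l : Fin n → Fin k => Function.Surjective l), 2 ^ adj l ≤
      ∑ ρ : Fin k → Fin n, ∑ l ∈ univ.filter (fun l : Fin n → Fin k => ∀ i, l (ρ i) = i),
        2 ^ adj l := by
    simp only [sum_filter]
    rw [sum_comm]
    apply sum_le_sum
    intro l _
    by_cases hl : Function.Surjective l
    · rw [if_pos hl]
      have h2 : ∀ i, l (Function.surjInv hl i) = i := Function.surjInv_eq hl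
      have h3 : (if ∀ i, l (Function.surjInv hl i) = i then 2 ^ adj l else 0) = 2 ^ adj l :=
        if_pos h2
      refine h3.symm.le.trans ?_
      exact single_le_sum (f := fun ρ : Fin k → Fin n => if ∀ i, l (ρ i) = i then 2 ^ adj l else 0)
        (fun _ _ => Nat.zero_le _) (mem_univ (Function.surjInv hl))
    · rw [if_neg hl]
      exact Nat.zero_le _
  refine h1.trans ?_
  have h2 : ∀ ρ : Fin k → Fin n,
      ∑ l ∈ univ.filter (fun l : Fin n → Fin k => ∀ i, l (ρ i) = i), 2 ^ adj l ≤
        2 ^ (k + 2 * (n - k)) * B := by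
    intro ρ
    rcases (univ.filter (fun l : Fin n → Fin k => ∀ i, l (ρ i) = i)).eq_empty_or_nonempty with
      he | ⟨l0, hl0⟩
    · rw [he, sum_empty]; exact Nat.zero_le _
    have hinj : Function.Injective ρ := by
      intro i j hij
      have h0 := (mem_filter.1 hl0).2
      rw [← h0 i, ← h0 j, hij]
    have hN : Fintype.card {x : Fin n // x ∉ Set.range ρ} = n - k := by
      rw [Fintype.card_subtype_compl, Fintype.card_fin]
      congr 1
      have := Fintype.card_congr (Equiv.ofInjective ρ hinj)
      rw [Fintype.card_fin] at this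
      convert this.symm using 1
    calc ∑ l ∈ univ.filter (fun l : Fin n → Fin k => ∀ i, l (ρ i) = i), 2 ^ adj l
        ≤ ∑ l ∈ univ.filter (fun l : Fin n → Fin k => ∀ i, l (ρ i) = i),
          2 ^ (k + 2 * (n - k)) * 2 ^ adj (fun x : {x : Fin n // x ∉ Set.range ρ} => l x) := by
          apply sum_le_sum
          intro l hl
          rw [← pow_add]
          exact Nat.pow_le_pow_right (by norm_num) (adj_restrict (mem_filter.1 hl).2 hN)
      _ = 2 ^ (k + 2 * (n - k)) *
          ∑ l ∈ univ.filter (fun l : Fin n → Fin k => ∀ i, l (ρ i) = i),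
            2 ^ adj (fun x : {x : Fin n // x ∉ Set.range ρ} => l x) := by rw [mul_sum]
      _ ≤ 2 ^ (k + 2 * (n - k)) * B := by
          apply Nat.mul_le_mul_left
          refine le_trans ?_ (hB {x : Fin n // x ∉ Set.range ρ} hN)
          have e : ∑ l ∈ univ.filter (fun l : Fin n → Fin k => ∀ i, l (ρ i) = i),
              2 ^ adj (fun x : {x : Fin n // x ∉ Set.range ρ} => l x) =
              ∑ l' ∈ (univ.filter (fun l : Fin n → Fin k => ∀ i, l (ρ i) = i)).image
                (fun l => fun x : {x : Fin n // x ∉ Set.range ρ} => l x), 2 ^ adj l' := by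
            rw [sum_image]
            intro l hl l' hl' hll
            have g1 := (mem_filter.1 (mem_coe.1 hl)).2
            have g2 := (mem_filter.1 (mem_coe.1 hl')).2
            funext x
            by_cases hx : x ∈ Set.range ρ
            · obtain ⟨i, rfl⟩ := hx
              rw [g1, g2]
            · exact congrFun hll ⟨x, hx⟩
          rw [e]
          exact sum_le_sum_of_subset (subset_univ _)
  calc ∑ ρ : Fin k → Fin n, ∑ l ∈ univ.filter (fun l : Fin n → Fin k => ∀ i, l (ρ i) = i),
        2 ^ adj l ≤ ∑ _ρ : Fin k → Fin n, 2 ^ (k + 2 * (n - k)) * B :=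
        sum_le_sum fun ρ _ => h2 ρ
    _ = n ^ k * (2 ^ (k + 2 * (n - k)) * B) := by
        rw [sum_const, card_univ, smul_eq_mul]
        simp

end rep

end Pool.Agent.U446.GO
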