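import Pool.Agent.U446.GO.Up1

/-! Upper bound, second part: the sum over all level functions. -/

set_option autoImplicit false

namespace Pool.Agent.U446.GO

open Finset

section far

variable {α : Type} [Fintype α] [DecidableEq α] {k : ℕ}

/-- adjacent levels -/
def AdjL (c d : Fin k) : Prop := (c : ℕ) + 1 = d ∨ (d : ℕ) + 1 = c

instance : DecidableRel (AdjL (k := k)) := fun c d => by unfold AdjL; infer_instance

/-- the number of pairs between `A` and its complement that are not on adjacent levels -/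
def far (A : Finset α) (l : α → Fin k) : ℕ :=
  ((A ×ˢ Aᶜ).filter (fun p => ¬ AdjL (l p.1) (l p.2))).card

/-- elements on even levels -/
def evens (l : α → Fin k) : Finset α := univ.filter (fun x => Even (l x : ℕ))

lemma adj_far (l : α → Fin k) :
    adj l + far (evens l) l ≤ (evens l).card * (evens l)ᶜ.card := by
  set A := evens l with hA
  have memA : ∀ x, x ∈ A ↔ Even (l x : ℕ) := by intro x; simp [hA, evens]
  have h1 : adj l ≤ ((A ×ˢ Aᶜ).filter (fun p => AdjL (l p.1) (l p.2))).card := by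
    unfold adj
    apply card_le_card_of_injOn (fun p => if Even (l p.1 : ℕ) then p else (p.2, p.1))
    · intro p hp
      have hp' : (l p.1 : ℕ) + 1 = l p.2 := (mem_filter.1 (mem_coe.1 hp)).2
      by_cases he : Even (l p.1 : ℕ)
      · simp only [he, if_true]
        rw [mem_coe, mem_filter, mem_product, mem_compl, memA, memA]
        refine ⟨⟨he, ?_⟩, Or.inl hp'⟩
        rw [← hp', Nat.even_add_one]
        simpa using he
      · simp only [he, if_false]
        rw [mem_coe, mem_filter, mem_product, mem_compl, memA, memA]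
        refine ⟨⟨?_, he⟩, Or.inr hp'⟩
        rw [← hp', Nat.even_add_one]
        exact he
    · intro p hp q hq hpq
      have hp' : (l p.1 : ℕ) + 1 = l p.2 := (mem_filter.1 (mem_coe.1 hp)).2
      have hq' : (l q.1 : ℕ) + 1 = l q.2 := (mem_filter.1 (mem_coe.1 hq)).2
      simp only at hpq
      by_cases he : Even (l p.1 : ℕ) <;> by_cases he' : Even (l q.1 : ℕ)
      · simpa [he, he'] using hpq
      · simp only [he, he', if_true, if_false] at hpq
        exfalso
        rw [hpq] at hp'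
        simp only at hp'
        omega
      · simp only [he, he', if_true, if_false] at hpq
        exfalso
        rw [← hpq] at hq'
        simp only at hq'
        omega
      · simp only [he, he', if_false, Prod.mk.injEq] at hpq
        exact Prod.ext hpq.2 hpq.1
  have h2 := card_filter_add_card_filter_not (s := A ×ˢ Aᶜ) (fun p => AdjL (l p.1) (l p.2))
  rw [card_product] at h2
  unfold far
  omega

lemma S_le : (∑ l : α → Fin k, (2 : ℝ) ^ adj l) ≤
    ∑ A : Finset α, (2 : ℝ) ^ (A.card * Aᶜ.card) * ∑ l : α → Fin k, (1 / 2 : ℝ) ^ far A l := by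
  simp only [mul_sum]
  rw [sum_comm]
  apply sum_le_sum
  intro l _
  have h1 : (2 : ℝ) ^ adj l ≤ (2 : ℝ) ^ ((evens l).card * (evens l)ᶜ.card) *
      (1 / 2 : ℝ) ^ far (evens l) l := by
    have h2 := adj_far l
    rw [one_div, inv_pow, ← div_eq_mul_inv, le_div_iff₀ (by positivity), ← pow_add]
    exact pow_le_pow_right₀ (by norm_num) h2
  refine h1.trans ?_
  exact single_le_sum (f := fun A : Finset α => (2 : ℝ) ^ (A.card * Aᶜ.card) *
    (1 / 2 : ℝ) ^ far A l) (fun _ _ => by positivity) (mem_univ (evens l))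

/-- weights -/
noncomputable def W (A P Q : Finset α) (i j : Fin k) (X Y : ℝ) (x : α) (c : Fin k) : ℝ :=
  if x ∈ A then (if x ∈ P then (if (c : ℤ) = 2 * (j : ℤ) - i then 1 else 0)
    else (if c = i then 1 else X))
  else (if x ∈ Q then (if (c : ℤ) = 2 * (i : ℤ) - j then 1 else 0) else (if c = j then 1 else Y))

lemma W_nonneg {A P Q : Finset α} {i j : Fin k} {X Y : ℝ} (hX : 0 ≤ X) (hY : 0 ≤ Y) (x : α)
    (c : Fin k) : 0 ≤ W A P Q i j X Y x c := by
  unfold W
  split_ifs <;> first | exact zero_le_one | exact le_rfl | assumption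

lemma sum_eq_le (v : ℤ) : (∑ c : Fin k, if (c : ℤ) = v then (1 : ℝ) else 0) ≤ 1 := by
  rw [sum_boole]
  have : (univ.filter (fun c : Fin k => (c : ℤ) = v)).card ≤ 1 := by
    apply card_le_one.2
    intro a ha b hb
    have h1 := (mem_filter.1 ha).2
    have h2 := (mem_filter.1 hb).2
    apply Fin.ext
    omega
  exact_mod_cast this

lemma sum_ite_le' (i : Fin k) {X : ℝ} (hX : 0 ≤ X) :
    (∑ c : Fin k, if c = i then (1 : ℝ) else X) ≤ 1 + k * X := by
  calc (∑ c : Fin k, if c = i then (1 : ℝ) else X)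
      ≤ ∑ c : Fin k, ((if c = i then (1 : ℝ) else 0) + X) := by
        apply sum_le_sum
        intro c _
        split_ifs <;> linarith
    _ = 1 + k * X := by
        rw [sum_add_distrib, sum_ite_eq' univ i, if_pos (mem_univ i), sum_const, card_univ,
          Fintype.card_fin, nsmul_eq_mul]

lemma W_sum {A P Q : Finset α} {i j : Fin k} {X Y : ℝ} (hX : 0 ≤ X) (hY : 0 ≤ Y) (x : α) :
    ∑ c, W A P Q i j X Y x c ≤ if x ∈ A then 1 + k * X else 1 + k * Y := by
  have hkX : (0 : ℝ) ≤ k * X := by positivity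
  have hkY : (0 : ℝ) ≤ k * Y := by positivity
  unfold W
  by_cases h1 : x ∈ A
  · simp only [h1, if_true]
    by_cases h2 : x ∈ P
    · simp only [h2, if_true]
      linarith [sum_eq_le (k := k) (2 * (j : ℤ) - i)]
    · simp only [h2, if_false]
      exact sum_ite_le' i hX
  · simp only [h1, if_false]
    by_cases h2 : x ∈ Q
    · simp only [h2, if_true]
      linarith [sum_eq_le (k := k) (2 * (i : ℤ) - j)]
    · simp only [h2, if_false]
      exact sum_ite_le' j hY

lemma sum_prod_W {A P Q : Finset α} {i j : Fin k} {X Y : ℝ} (hX : 0 ≤ X) (hY : 0 ≤ Y) :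
    ∑ l : α → Fin k, ∏ x, W A P Q i j X Y x (l x) ≤
      (1 + k * X) ^ A.card * (1 + k * Y) ^ Aᶜ.card := by
  have h1 : ∑ l : α → Fin k, ∏ x, W A P Q i j X Y x (l x) = ∏ x, ∑ c, W A P Q i j X Y x c := by
    rw [Finset.prod_univ_sum (fun _ : α => (univ : Finset (Fin k)))]
    rw [Fintype.piFinset_univ]
  rw [h1]
  calc ∏ x, ∑ c, W A P Q i j X Y x c ≤ ∏ x : α, if x ∈ A then 1 + k * X else 1 + k * Y := by
        apply prod_le_prod
        · intro x _
          exact sum_nonneg fun c _ => W_nonneg hX hY x c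
        · intro x _
          exact W_sum hX hY x
    _ = (1 + k * X) ^ A.card * (1 + k * Y) ^ Aᶜ.card := by
        rw [← prod_mul_prod_compl A]
        congr 1
        · rw [← prod_const]
          exact prod_congr rfl fun x hx => if_pos hx
        · rw [← prod_const]
          exact prod_congr rfl fun x hx => if_neg (mem_compl.1 hx)

lemma prod_if (s : Finset α) (p : α → Prop) [DecidablePred p] (X : ℝ) :
    (∏ x ∈ s, if p x then X else 1) = X ^ (s.filter p).card := by
  rw [prod_ite, prod_const, prod_const_one, mul_one]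

/-- the main estimate for adjacent popular levels -/
lemma far_adj (A : Finset α) (l : α → Fin k) {i j : Fin k} (hij : AdjL i j) {u v : ℕ}
    (hi : u ≤ (A.filter (fun x => l x = i)).card) (hj : v ≤ (Aᶜ.filter (fun x => l x = j)).card) :
    (1 / 2 : ℝ) ^ far A l ≤
      (1 / 2 : ℝ) ^ ((A.filter (fun x => (l x : ℤ) = 2 * (j : ℤ) - i)).card *
        (Aᶜ.filter (fun x => (l x : ℤ) = 2 * (i : ℤ) - j)).card) *
      ∏ x, W A (A.filter (fun x => (l x : ℤ) = 2 * (j : ℤ) - i))
        (Aᶜ.filter (fun x => (l x : ℤ) = 2 * (i : ℤ) - j)) i j ((1 / 2) ^ v) ((1 / 2) ^ u) x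
        (l x) := by
  set P := A.filter (fun x => (l x : ℤ) = 2 * (j : ℤ) - i) with hP
  set Q := Aᶜ.filter (fun x => (l x : ℤ) = 2 * (i : ℤ) - j) with hQ
  set Ai := A.filter (fun x => l x = i) with hAi
  set Bj := Aᶜ.filter (fun x => l x = j) with hBj
  set U := A.filter (fun x => ¬ (l x : ℤ) = 2 * (j : ℤ) - i ∧ ¬ l x = i) with hU
  set V := Aᶜ.filter (fun x => ¬ (l x : ℤ) = 2 * (i : ℤ) - j ∧ ¬ l x = j) with hV
  have e1 : ∏ x ∈ A, W A P Q i j ((1 / 2) ^ v) ((1 / 2) ^ u) x (l x) =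
      ((1 / 2 : ℝ) ^ v) ^ U.card := by
    rw [hU, ← prod_if]
    apply prod_congr rfl
    intro x hx
    unfold W
    rw [if_pos hx]
    by_cases h1 : (l x : ℤ) = 2 * (j : ℤ) - i
    · have : x ∈ P := mem_filter.2 ⟨hx, h1⟩
      rw [if_pos this, if_pos h1, if_neg (by tauto)]
    · have : x ∉ P := fun h => h1 (mem_filter.1 h).2
      rw [if_neg this]
      by_cases h2 : l x = i
      · rw [if_pos h2, if_neg (by tauto)]
      · rw [if_neg h2, if_pos (by tauto)]
  have e2 : ∏ x ∈ Aᶜ, W A P Q i j ((1 / 2) ^ v) ((1 / 2) ^ u) x (l x) =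
      ((1 / 2 : ℝ) ^ u) ^ V.card := by
    rw [hV, ← prod_if]
    apply prod_congr rfl
    intro x hx
    unfold W
    rw [if_neg (mem_compl.1 hx)]
    by_cases h1 : (l x : ℤ) = 2 * (i : ℤ) - j
    · have : x ∈ Q := mem_filter.2 ⟨hx, h1⟩
      rw [if_pos this, if_pos h1, if_neg (by tauto)]
    · have : x ∉ Q := fun h => h1 (mem_filter.1 h).2
      rw [if_neg this]
      by_cases h2 : l x = j
      · rw [if_pos h2, if_neg (by tauto)]
      · rw [if_neg h2, if_pos (by tauto)]
  rw [← prod_mul_prod_compl A, e1, e2, ← pow_mul, ← pow_mul, ← pow_add, ← pow_add]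
  apply pow_le_pow_of_le_one (by norm_num) (by norm_num)
  have hsub : (P ×ˢ Q) ∪ (U ×ˢ Bj) ∪ (Ai ×ˢ V) ⊆
      (A ×ˢ Aᶜ).filter (fun p => ¬ AdjL (l p.1) (l p.2)) := by
    intro p hp
    rw [mem_filter, mem_product]
    rw [mem_union, mem_union, mem_product, mem_product, mem_product] at hp
    unfold AdjL at hij ⊢
    rcases hp with (⟨h1, h2⟩ | ⟨h1, h2⟩) | ⟨h1, h2⟩
    · rw [hP, mem_filter] at h1
      rw [hQ, mem_filter] at h2
      refine ⟨⟨h1.1, h2.1⟩, ?_⟩
      have g1 := h1.2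
      have g2 := h2.2
      omega
    · rw [hU, mem_filter] at h1
      rw [hBj, mem_filter] at h2
      refine ⟨⟨h1.1, h2.1⟩, ?_⟩
      obtain ⟨g1, g3⟩ := h1.2
      rw [h2.2]
      have g4 : (l p.1 : ℕ) ≠ i := fun h => g3 (Fin.ext h)
      omega
    · rw [hAi, mem_filter] at h1
      rw [hV, mem_filter] at h2
      refine ⟨⟨h1.1, h2.1⟩, ?_⟩
      obtain ⟨g1, g3⟩ := h2.2
      rw [h1.2]
      have g4 : (l p.2 : ℕ) ≠ j := fun h => g3 (Fin.ext h)
      omega
  have hd1 : Disjoint (P ×ˢ Q) (U ×ˢ Bj) := by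
    rw [disjoint_left]
    intro p hp hq
    rw [mem_product] at hp hq
    exact (mem_filter.1 hq.1).2.1 (mem_filter.1 hp.1).2
  have hd2 : Disjoint ((P ×ˢ Q) ∪ (U ×ˢ Bj)) (Ai ×ˢ V) := by
    rw [disjoint_left]
    intro p hp hq
    rw [mem_product] at hq
    rw [mem_union, mem_product, mem_product] at hp
    rcases hp with hp | hp
    · exact (mem_filter.1 hq.2).2.1 (mem_filter.1 hp.2).2
    · exact (mem_filter.1 hq.2).2.2 (mem_filter.1 hp.2).2
  have h3 := card_le_card hsub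
  rw [card_union_of_disjoint hd2, card_union_of_disjoint hd1, card_product, card_product,
    card_product] at h3
  unfold far
  have h4 : v * U.card ≤ U.card * Bj.card := by rw [mul_comm]; exact Nat.mul_le_mul_left _ hj
  have h5 : u * V.card ≤ Ai.card * V.card := Nat.mul_le_mul_right _ hi
  omega

lemma far_nonadj (A : Finset α) (l : α → Fin k) {i j : Fin k} (hij : ¬ AdjL i j) {u v : ℕ}
    (hi : u ≤ (A.filter (fun x => l x = i)).card) (hj : v ≤ (Aᶜ.filter (fun x => l x = j)).card) :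
    (1 / 2 : ℝ) ^ far A l ≤ (1 / 2 : ℝ) ^ (u * v) := by
  apply pow_le_pow_of_le_one (by norm_num) (by norm_num)
  have hsub : (A.filter (fun x => l x = i)) ×ˢ (Aᶜ.filter (fun x => l x = j)) ⊆
      (A ×ˢ Aᶜ).filter (fun p => ¬ AdjL (l p.1) (l p.2)) := by
    intro p hp
    rw [mem_product, mem_filter, mem_filter] at hp
    rw [mem_filter, mem_product]
    refine ⟨⟨hp.1.1, hp.2.1⟩, ?_⟩
    rw [hp.1.2, hp.2.2]
    exact hij
  have h3 := card_le_card hsub
  rw [card_product] at h3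
  exact (Nat.mul_le_mul hi hj).trans h3

lemma popular (hk : 0 < k) (s : Finset α) (l : α → Fin k) :
    ∃ i, s.card / k ≤ (s.filter (fun x => l x = i)).card := by
  obtain ⟨i, -, hi⟩ := exists_le_card_fiber_of_mul_le_card_of_maps_to (s := s)
    (t := (univ : Finset (Fin k))) (f := l) (n := s.card / k) (fun _ _ => mem_univ _)
    ⟨⟨0, hk⟩, mem_univ _⟩ (by rw [card_univ, Fintype.card_fin]; exact Nat.mul_div_le _ _)
  exact ⟨i, hi⟩

/-- the sum over subsets -/
lemma sum_sets {β : Type} [DecidableEq β] (s t : Finset β) :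
    ∑ P ∈ s.powerset, ∑ Q ∈ t.powerset, (1 / 2 : ℝ) ^ (P.card * Q.card) ≤
      (s.card + t.card + 18) * 2 ^ max s.card t.card := by
  have point : ∀ p q : ℕ, (1 / 2 : ℝ) ^ (p * q) ≤ (if p = 0 then 1 else 0) +
      (if q = 0 then 1 else 0) + (if p = 1 then 1 else 0) * (1 / 2 : ℝ) ^ q +
      (if q = 1 then 1 else 0) * (1 / 2 : ℝ) ^ p + 16 * ((1 / 4 : ℝ) ^ p * (1 / 4 : ℝ) ^ q) := by
    intro p q
    have n1 : (0 : ℝ) ≤ (if p = 0 then 1 else 0) := by split_ifs <;> norm_num
    have n2 : (0 : ℝ) ≤ (if q = 0 then 1 else 0) := by split_ifs <;> norm_num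
    have n3 : (0 : ℝ) ≤ (if p = 1 then 1 else 0) * (1 / 2 : ℝ) ^ q := by
      split_ifs <;> positivity
    have n4 : (0 : ℝ) ≤ (if q = 1 then 1 else 0) * (1 / 2 : ℝ) ^ p := by
      split_ifs <;> positivity
    have n5 : (0 : ℝ) ≤ 16 * ((1 / 4 : ℝ) ^ p * (1 / 4 : ℝ) ^ q) := by positivity
    by_cases h1 : p = 0
    · subst h1
      have : (1 / 2 : ℝ) ^ (0 * q) = 1 := by simp
      rw [this]
      rw [if_pos rfl] at n1 ⊢
      linarith
    by_cases h2 : q = 0
    · subst h2
      have : (1 / 2 : ℝ) ^ (p * 0) = 1 := by simp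
      rw [this]
      rw [if_pos rfl] at n2 ⊢
      linarith
    by_cases h3 : p = 1
    · subst h3
      have z : (if (1 : ℕ) = 0 then (1 : ℝ) else 0) = 0 := by simp
      have z2 : (if (1 : ℕ) = 1 then (1 : ℝ) else 0) = 1 := by simp
      rw [z, z2, one_mul, one_mul]
      have n4' : (0 : ℝ) ≤ (if q = 1 then 1 else 0) * (1 / 2 : ℝ) ^ 1 := n4
      linarith
    by_cases h4 : q = 1
    · subst h4
      have z : (if (1 : ℕ) = 0 then (1 : ℝ) else 0) = 0 := by simp
      have z2 : (if (1 : ℕ) = 1 then (1 : ℝ) else 0) = 1 := by simp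
      rw [z, z2, one_mul, mul_one]
      have n3' : (0 : ℝ) ≤ (if p = 1 then 1 else 0) * (1 / 2 : ℝ) ^ 1 := n3
      linarith
    have h5 : (1 / 2 : ℝ) ^ (p * q) ≤ 16 * ((1 / 4 : ℝ) ^ p * (1 / 4 : ℝ) ^ q) := by
      obtain ⟨p', rfl⟩ := Nat.exists_eq_add_of_le (show 2 ≤ p by omega)
      obtain ⟨q', rfl⟩ := Nat.exists_eq_add_of_le (show 2 ≤ q by omega)
      have e : 16 * ((1 / 4 : ℝ) ^ (2 + p') * (1 / 4 : ℝ) ^ (2 + q')) =
          (1 / 2 : ℝ) ^ (2 * p' + 2 * q' + 4) := by
        rw [show (1 / 4 : ℝ) = (1 / 2) ^ 2 by norm_num, ← pow_mul, ← pow_mul, ← pow_add,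
          show 2 * (2 + p') + 2 * (2 + q') = 2 * p' + 2 * q' + 4 + 4 by ring, pow_add _ _ 4]
        ring
      rw [e]
      apply pow_le_pow_of_le_one (by norm_num) (by norm_num)
      nlinarith
    linarith
  have hA : ∀ s : Finset β, ∑ P ∈ s.powerset, (if P.card = 0 then (1 : ℝ) else 0) = 1 := by
    intro s
    have : ∀ P ∈ s.powerset, (if P.card = 0 then (1 : ℝ) else 0) = if P = ∅ then 1 else 0 := by
      intro P _
      simp only [card_eq_zero]
    rw [sum_congr rfl this, sum_ite_eq' s.powerset ∅, if_pos (empty_mem_powerset s)]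
  have hB : ∀ s : Finset β, ∑ P ∈ s.powerset, (if P.card = 1 then (1 : ℝ) else 0) = s.card := by
    intro s
    rw [sum_boole, ← powersetCard_eq_filter, card_powersetCard, Nat.choose_one_right]
  have hC : ∀ (s : Finset β) (x : ℝ), ∑ P ∈ s.powerset, x ^ P.card = (x + 1) ^ s.card := by
    intro s x
    rw [← sum_pow_mul_eq_add_pow x 1 s]
    apply sum_congr rfl
    intro P _
    rw [one_pow, mul_one]
  have hD : ∀ s : Finset β, ∑ P ∈ s.powerset, (1 : ℝ) = 2 ^ s.card := by
    intro s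
    rw [sum_const, card_powerset, nsmul_eq_mul, mul_one]
    push_cast
    rfl
  have total : ∑ P ∈ s.powerset, ∑ Q ∈ t.powerset, (1 / 2 : ℝ) ^ (P.card * Q.card) ≤
      2 ^ t.card + 2 ^ s.card + s.card * (1 / 2 + 1) ^ t.card + t.card * (1 / 2 + 1) ^ s.card +
        16 * ((1 / 4 + 1) ^ s.card * (1 / 4 + 1) ^ t.card) := by
    calc ∑ P ∈ s.powerset, ∑ Q ∈ t.powerset, (1 / 2 : ℝ) ^ (P.card * Q.card)
        ≤ ∑ P ∈ s.powerset, ∑ Q ∈ t.powerset, ((if P.card = 0 then (1 : ℝ) else 0) +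
          (if Q.card = 0 then 1 else 0) + (if P.card = 1 then 1 else 0) * (1 / 2 : ℝ) ^ Q.card +
          (if Q.card = 1 then 1 else 0) * (1 / 2 : ℝ) ^ P.card +
          16 * ((1 / 4 : ℝ) ^ P.card * (1 / 4 : ℝ) ^ Q.card)) := by
          apply sum_le_sum
          intro P _
          apply sum_le_sum
          intro Q _
          exact point _ _
      _ = ∑ P ∈ s.powerset, ((if P.card = 0 then (1 : ℝ) else 0) * 2 ^ t.card + 1 +
          (if P.card = 1 then 1 else 0) * (1 / 2 + 1) ^ t.card +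
          t.card * (1 / 2 : ℝ) ^ P.card + 16 * ((1 / 4 : ℝ) ^ P.card * (1 / 4 + 1) ^ t.card)) := by
          apply sum_congr rfl
          intro P _
          rw [sum_add_distrib, sum_add_distrib, sum_add_distrib, sum_add_distrib, ← mul_sum,
            ← sum_mul, ← mul_sum, ← mul_sum, hA, hB, hC, hC, sum_const, card_powerset,
            nsmul_eq_mul]
          push_cast
          ring
      _ = _ := by
          rw [sum_add_distrib, sum_add_distrib, sum_add_distrib, sum_add_distrib, ← mul_sum,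
            ← sum_mul, ← sum_mul, ← mul_sum, ← sum_mul, hA, hB, hC, hC, hD]
          ring
  refine total.trans ?_
  set M := max s.card t.card
  have m1 : (2 : ℝ) ^ t.card ≤ 2 ^ M := pow_le_pow_right₀ (by norm_num) (le_max_right _ _)
  have m2 : (2 : ℝ) ^ s.card ≤ 2 ^ M := pow_le_pow_right₀ (by norm_num) (le_max_left _ _)
  have m3 : (1 / 2 + 1 : ℝ) ^ t.card ≤ 2 ^ M :=
    (pow_le_pow_left₀ (by norm_num) (by norm_num) _).trans m1
  have m4 : (1 / 2 + 1 : ℝ) ^ s.card ≤ 2 ^ M :=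
    (pow_le_pow_left₀ (by norm_num) (by norm_num) _).trans m2
  have m5 : (1 / 4 + 1 : ℝ) ^ s.card * (1 / 4 + 1) ^ t.card ≤ 2 ^ M := by
    rw [← pow_add]
    calc (1 / 4 + 1 : ℝ) ^ (s.card + t.card) ≤ (1 / 4 + 1 : ℝ) ^ (2 * M) := by
          apply pow_le_pow_right₀ (by norm_num)
          have := le_max_left s.card t.card
          have := le_max_right s.card t.card
          omega
      _ = ((1 / 4 + 1 : ℝ) ^ 2) ^ M := by rw [pow_mul]
      _ ≤ 2 ^ M := pow_le_pow_left₀ (by norm_num) (by norm_num) _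
  have m6 := mul_le_mul_of_nonneg_left m3 (Nat.cast_nonneg (α := ℝ) s.card)
  have m7 := mul_le_mul_of_nonneg_left m4 (Nat.cast_nonneg (α := ℝ) t.card)
  nlinarith

/-- the sum over the level functions, for a fixed set `A` -/
theorem T_le (hk : 0 < k) (A : Finset α) :
    ∑ l : α → Fin k, (1 / 2 : ℝ) ^ far A l ≤
      (k : ℝ) ^ Fintype.card α * (1 / 2) ^ ((A.card / k) * (Aᶜ.card / k)) +
      k ^ 2 * (((1 + k * (1 / 2) ^ (Aᶜ.card / k)) ^ A.card *
        (1 + k * (1 / 2) ^ (A.card / k)) ^ Aᶜ.card) *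
        ((A.card + Aᶜ.card + 18) * 2 ^ max A.card Aᶜ.card)) := by
  set u := A.card / k with hu
  set v := Aᶜ.card / k with hv
  set X : ℝ := (1 / 2) ^ v with hX
  set Y : ℝ := (1 / 2) ^ u with hY
  have hX0 : 0 ≤ X := by positivity
  have hY0 : 0 ≤ Y := by positivity
  have h1 : ∀ l : α → Fin k, (1 / 2 : ℝ) ^ far A l ≤ (1 / 2 : ℝ) ^ (u * v) +
      ∑ i : Fin k, ∑ j : Fin k, ∑ P ∈ A.powerset, ∑ Q ∈ Aᶜ.powerset,
        (1 / 2 : ℝ) ^ (P.card * Q.card) * ∏ x, W A P Q i j X Y x (l x) := by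
    intro l
    obtain ⟨i, hi⟩ := popular hk A l
    obtain ⟨j, hj⟩ := popular hk Aᶜ l
    have hnn : ∀ (i j : Fin k) (P Q : Finset α),
        0 ≤ (1 / 2 : ℝ) ^ (P.card * Q.card) * ∏ x, W A P Q i j X Y x (l x) := by
      intro i j P Q
      apply mul_nonneg (by positivity)
      exact prod_nonneg fun x _ => W_nonneg hX0 hY0 x _
    by_cases hij : AdjL i j
    · have h2 := far_adj A l hij hi hj
      set P := A.filter (fun x => (l x : ℤ) = 2 * (j : ℤ) - i)
      set Q := Aᶜ.filter (fun x => (l x : ℤ) = 2 * (i : ℤ) - j)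
      refine h2.trans ?_
      have h3 : (0 : ℝ) ≤ (1 / 2 : ℝ) ^ (u * v) := by positivity
      refine le_trans ?_ (le_add_of_nonneg_left h3)
      have s1 : (1 / 2 : ℝ) ^ (P.card * Q.card) * ∏ x, W A P Q i j X Y x (l x) ≤
          ∑ Q ∈ Aᶜ.powerset, (1 / 2 : ℝ) ^ (P.card * Q.card) * ∏ x, W A P Q i j X Y x (l x) :=
        single_le_sum (f := fun Q => (1 / 2 : ℝ) ^ (P.card * Q.card) *
          ∏ x, W A P Q i j X Y x (l x)) (fun Q _ => hnn i j P Q)
          (mem_powerset.2 (filter_subset _ _))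
      have s2 : ∑ Q ∈ Aᶜ.powerset, (1 / 2 : ℝ) ^ (P.card * Q.card) *
          ∏ x, W A P Q i j X Y x (l x) ≤ ∑ P ∈ A.powerset, ∑ Q ∈ Aᶜ.powerset,
            (1 / 2 : ℝ) ^ (P.card * Q.card) * ∏ x, W A P Q i j X Y x (l x) :=
        single_le_sum (f := fun P => ∑ Q ∈ Aᶜ.powerset, (1 / 2 : ℝ) ^ (P.card * Q.card) *
          ∏ x, W A P Q i j X Y x (l x)) (fun P _ => sum_nonneg fun Q _ => hnn i j P Q)
          (mem_powerset.2 (filter_subset _ _))
      have s3 : ∑ P ∈ A.powerset, ∑ Q ∈ Aᶜ.powerset,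
            (1 / 2 : ℝ) ^ (P.card * Q.card) * ∏ x, W A P Q i j X Y x (l x) ≤
          ∑ j : Fin k, ∑ P ∈ A.powerset, ∑ Q ∈ Aᶜ.powerset,
            (1 / 2 : ℝ) ^ (P.card * Q.card) * ∏ x, W A P Q i j X Y x (l x) :=
        single_le_sum (f := fun j => ∑ P ∈ A.powerset, ∑ Q ∈ Aᶜ.powerset,
            (1 / 2 : ℝ) ^ (P.card * Q.card) * ∏ x, W A P Q i j X Y x (l x))
          (fun j _ => sum_nonneg fun P _ => sum_nonneg fun Q _ => hnn i j P Q) (mem_univ j)
      have s4 : ∑ j : Fin k, ∑ P ∈ A.powerset, ∑ Q ∈ Aᶜ.powerset,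
            (1 / 2 : ℝ) ^ (P.card * Q.card) * ∏ x, W A P Q i j X Y x (l x) ≤
          ∑ i : Fin k, ∑ j : Fin k, ∑ P ∈ A.powerset, ∑ Q ∈ Aᶜ.powerset,
            (1 / 2 : ℝ) ^ (P.card * Q.card) * ∏ x, W A P Q i j X Y x (l x) :=
        single_le_sum (f := fun i => ∑ j : Fin k, ∑ P ∈ A.powerset, ∑ Q ∈ Aᶜ.powerset,
            (1 / 2 : ℝ) ^ (P.card * Q.card) * ∏ x, W A P Q i j X Y x (l x))
          (fun i _ => sum_nonneg fun j _ => sum_nonneg fun P _ => sum_nonneg fun Q _ =>
            hnn i j P Q) (mem_univ i)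
      exact ((s1.trans s2).trans s3).trans s4
    · have h2 := far_nonadj A l hij hi hj
      refine h2.trans ?_
      apply le_add_of_nonneg_right
      exact sum_nonneg fun i _ => sum_nonneg fun j _ => sum_nonneg fun P _ =>
        sum_nonneg fun Q _ => hnn i j P Q
  calc ∑ l : α → Fin k, (1 / 2 : ℝ) ^ far A l
      ≤ ∑ l : α → Fin k, ((1 / 2 : ℝ) ^ (u * v) +
        ∑ i : Fin k, ∑ j : Fin k, ∑ P ∈ A.powerset, ∑ Q ∈ Aᶜ.powerset,
          (1 / 2 : ℝ) ^ (P.card * Q.card) * ∏ x, W A P Q i j X Y x (l x)) :=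
        sum_le_sum fun l _ => h1 l
    _ = (k : ℝ) ^ Fintype.card α * (1 / 2) ^ (u * v) +
        ∑ i : Fin k, ∑ j : Fin k, ∑ P ∈ A.powerset, ∑ Q ∈ Aᶜ.powerset,
          (1 / 2 : ℝ) ^ (P.card * Q.card) * ∑ l : α → Fin k, ∏ x, W A P Q i j X Y x (l x) := by
        rw [sum_add_distrib, sum_const, card_univ, nsmul_eq_mul]
        congr 1
        · simp
        · rw [sum_comm]
          apply sum_congr rfl; intro i _
          rw [sum_comm]
          apply sum_congr rfl; intro j _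
          rw [sum_comm]
          apply sum_congr rfl; intro P _
          rw [sum_comm]
          apply sum_congr rfl; intro Q _
          rw [mul_sum]
    _ ≤ (k : ℝ) ^ Fintype.card α * (1 / 2) ^ (u * v) +
        ∑ i : Fin k, ∑ j : Fin k, ∑ P ∈ A.powerset, ∑ Q ∈ Aᶜ.powerset,
          (1 / 2 : ℝ) ^ (P.card * Q.card) * ((1 + k * X) ^ A.card * (1 + k * Y) ^ Aᶜ.card) := by
        apply add_le_add le_rfl
        refine sum_le_sum fun i _ => sum_le_sum fun j _ => sum_le_sum fun P _ =>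
          sum_le_sum fun Q _ => ?_
        exact mul_le_mul_of_nonneg_left (sum_prod_W hX0 hY0) (by positivity)
    _ ≤ _ := by
        apply add_le_add le_rfl
        simp only [← sum_mul]
        rw [sum_const, sum_const, card_univ, Fintype.card_fin, nsmul_eq_mul, nsmul_eq_mul]
        have h3 := sum_sets A Aᶜ
        have h4 : 0 ≤ (1 + k * X) ^ A.card * (1 + k * Y) ^ Aᶜ.card := by positivity
        have h5 := mul_le_mul_of_nonneg_right h3 h4
        have h6 : (0 : ℝ) ≤ k := Nat.cast_nonneg k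
        calc (k : ℝ) * (k * ∑ P ∈ A.powerset, ∑ Q ∈ Aᶜ.powerset,
              (1 / 2 : ℝ) ^ (P.card * Q.card)) * ((1 + k * X) ^ A.card * (1 + k * Y) ^ Aᶜ.card)
            = (k * k) * ((∑ P ∈ A.powerset, ∑ Q ∈ Aᶜ.powerset,
              (1 / 2 : ℝ) ^ (P.card * Q.card)) *
                ((1 + k * X) ^ A.card * (1 + k * Y) ^ Aᶜ.card)) := by ring
          _ ≤ (k * k) * (((A.card : ℝ) + Aᶜ.card + 18) * 2 ^ max A.card Aᶜ.card *
              ((1 + k * X) ^ A.card * (1 + k * Y) ^ Aᶜ.card)) :=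
              mul_le_mul_of_nonneg_left h5 (by positivity)
          _ = _ := by ring

end far

end Pool.Agent.U446.GO
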