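import Pool.Agent.U446.GO.Up2

/-! Upper bound, third part: estimates. -/

set_option autoImplicit false

namespace Pool.Agent.U446.GO

open Finset

lemma exists_big (k : ℕ) : ∃ V : ℕ, ∀ v, V ≤ v → 8 * k ^ 2 * v ≤ 2 ^ v := by
  have h := (tendsto_pow_const_div_const_pow_of_one_lt 1 (show (1 : ℝ) < 2 by norm_num))
  have h2 : ∀ᶠ v : ℕ in Filter.atTop, ((v : ℝ) ^ 1 / 2 ^ v) < 1 / (8 * k ^ 2 + 1) :=
    h.eventually (gt_mem_nhds (by positivity))
  obtain ⟨V, hV⟩ := Filter.eventually_atTop.1 h2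
  refine ⟨V, fun v hv => ?_⟩
  have h3 := hV v hv
  rw [pow_one, div_lt_div_iff₀ (by positivity) (by positivity), one_mul] at h3
  have h4 : (8 * (k : ℝ) ^ 2 * v) ≤ 2 ^ v := by
    have : (0 : ℝ) ≤ v := Nat.cast_nonneg v
    nlinarith
  exact_mod_cast h4

lemma quarter {N a b : ℕ} (h : a + b = N) : 4 * (a * b + max a b) ≤ N ^ 2 + 2 * N + 1 := by
  subst h
  rcases le_total a b with h1 | h1
  · rw [max_eq_right h1]
    obtain ⟨c, rfl⟩ := Nat.exists_eq_add_of_le h1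
    rcases Nat.eq_zero_or_pos c with hc | hc
    · subst hc; nlinarith
    · nlinarith
  · rw [max_eq_left h1]
    obtain ⟨c, rfl⟩ := Nat.exists_eq_add_of_le h1
    rcases Nat.eq_zero_or_pos c with hc | hc
    · subst hc; nlinarith
    · nlinarith

lemma pow_one_add_le {k : ℕ} {v a : ℕ} (h : a * k ≤ 2 ^ v) :
    (1 + k * (1 / 2 : ℝ) ^ v) ^ a ≤ 3 := by
  have h1 : (1 + k * (1 / 2 : ℝ) ^ v) ≤ Real.exp (k * (1 / 2 : ℝ) ^ v) := by
    have := Real.add_one_le_exp (k * (1 / 2 : ℝ) ^ v)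
    linarith
  have h2 : (1 + k * (1 / 2 : ℝ) ^ v) ^ a ≤ Real.exp (k * (1 / 2 : ℝ) ^ v) ^ a :=
    pow_le_pow_left₀ (by positivity) h1 a
  rw [← Real.exp_nat_mul] at h2
  have h3 : (a : ℝ) * (k * (1 / 2 : ℝ) ^ v) ≤ 1 := by
    have h4 : ((a * k : ℕ) : ℝ) ≤ ((2 ^ v : ℕ) : ℝ) := by exact_mod_cast h
    push_cast at h4
    rw [← mul_assoc, one_div, inv_pow, ← div_eq_mul_inv, div_le_one (by positivity)]
    exact h4
  calc _ ≤ _ := h2
    _ ≤ Real.exp 1 := Real.exp_le_exp.2 h3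
    _ ≤ 3 := by
      have := Real.exp_one_lt_d9
      linarith

section

variable {α : Type} [Fintype α] [DecidableEq α]

lemma far_triv {k : ℕ} (A : Finset α) :
    ∑ l : α → Fin k, (1 / 2 : ℝ) ^ far A l ≤ (k : ℝ) ^ Fintype.card α := by
  calc ∑ l : α → Fin k, (1 / 2 : ℝ) ^ far A l ≤ ∑ _l : α → Fin k, (1 : ℝ) :=
        sum_le_sum fun l _ => pow_le_one₀ (by norm_num) (by norm_num)
    _ = _ := by rw [sum_const, card_univ, nsmul_eq_mul, mul_one]; simp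

theorem term_le {k : ℕ} (hk : 1 ≤ k) {V N : ℕ} (hV : ∀ v, V ≤ v → 8 * k ^ 2 * v ≤ 2 ^ v)
    (hN : 64 * k ^ 3 + 8 * k * V ≤ N) (hα : Fintype.card α = N) (A : Finset α) :
    (2 : ℝ) ^ (A.card * Aᶜ.card) * ∑ l : α → Fin k, (1 / 2 : ℝ) ^ far A l ≤
      (18 * k ^ 2 + 1) * (N + 18) * (2 : ℝ) ^ ((N : ℝ) ^ 2 / 4 + N / 2) := by
  have hab : A.card + Aᶜ.card = N := by rw [← hα]; exact card_add_card_compl A
  have hk0 : 0 < k := hk
  have hk2 : k ≤ k ^ 3 := by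
    calc k = k ^ 1 := (pow_one k).symm
      _ ≤ k ^ 3 := Nat.pow_le_pow_right hk0 (by norm_num)
  set E : ℝ := (2 : ℝ) ^ ((N : ℝ) ^ 2 / 4 + N / 2) with hE
  have hE0 : 0 < E := by positivity
  have hNr : (0 : ℝ) ≤ N := Nat.cast_nonneg N
  have small : ∀ m : ℕ, 4 * m ≤ N ^ 2 → (2 : ℝ) ^ m ≤ E := by
    intro m hm
    rw [hE, ← Real.rpow_natCast]
    apply Real.rpow_le_rpow_of_exponent_le (by norm_num)
    have : ((4 * m : ℕ) : ℝ) ≤ ((N ^ 2 : ℕ) : ℝ) := by exact_mod_cast hm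
    push_cast at this
    linarith
  have small2 : ∀ m : ℕ, 4 * m ≤ N ^ 2 + 2 * N + 1 → (2 : ℝ) ^ m ≤ 2 * E := by
    intro m hm
    have e : 2 * E = (2 : ℝ) ^ ((N : ℝ) ^ 2 / 4 + N / 2 + 1) := by
      rw [Real.rpow_add (by norm_num), Real.rpow_one, hE]; ring
    rw [e, ← Real.rpow_natCast]
    apply Real.rpow_le_rpow_of_exponent_le (by norm_num)
    have : ((4 * m : ℕ) : ℝ) ≤ ((N ^ 2 + 2 * N + 1 : ℕ) : ℝ) := by exact_mod_cast hm
    push_cast at this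
    linarith
  have hkN : (k : ℝ) ^ N ≤ 2 ^ (k * N) := by
    rw [pow_mul]
    apply pow_le_pow_left₀ (Nat.cast_nonneg k)
    exact_mod_cast (Nat.lt_two_pow_self).le
  have hCE : E ≤ (18 * k ^ 2 + 1) * (N + 18) * E := by
    have h1 : (1 : ℝ) ≤ (18 * k ^ 2 + 1) * (N + 18) := by
      have : (0 : ℝ) ≤ 18 * (k : ℝ) ^ 2 := by positivity
      nlinarith
    nlinarith
  by_cases hcase : N ≤ 4 * A.card ∧ N ≤ 4 * Aᶜ.card
  · obtain ⟨ha, hb⟩ := hcase
    have hu : ∀ c, N ≤ 4 * c → N ≤ 8 * k * (c / k) := by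
      intro c hc
      have h1 := Nat.lt_mul_div_succ c hk0
      have h2 : c < k * (c / k) + k := by
        calc c < k * (c / k + 1) := h1
          _ = _ := by ring
      nlinarith
    have hu1 := hu _ ha
    have hv1 := hu _ hb
    set u := A.card / k
    set v := Aᶜ.card / k
    have hVu : ∀ w, N ≤ 8 * k * w → V ≤ w := by
      intro w hw
      have : 8 * k * V ≤ 8 * k * w := by omega
      exact Nat.le_of_mul_le_mul_left this (by positivity)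
    have huv : k * N ≤ u * v := by
      have h1 : N * N ≤ (8 * k * u) * (8 * k * v) := Nat.mul_le_mul hu1 hv1
      have h2 : 64 * k ^ 3 * N ≤ N * N := Nat.mul_le_mul_right _ (by omega)
      have h3 : (64 * k ^ 2) * (k * N) ≤ (64 * k ^ 2) * (u * v) := by
        calc (64 * k ^ 2) * (k * N) = 64 * k ^ 3 * N := by ring
          _ ≤ _ := h2.trans h1
          _ = _ := by ring
      exact Nat.le_of_mul_le_mul_left h3 (by positivity)
    have hT := T_le hk0 A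
    rw [hα] at hT
    have t1 : (2 : ℝ) ^ (A.card * Aᶜ.card) * ((k : ℝ) ^ N * (1 / 2) ^ (u * v)) ≤ E := by
      have h1 : (k : ℝ) ^ N * (1 / 2) ^ (u * v) ≤ 1 := by
        rw [one_div, inv_pow, ← div_eq_mul_inv, div_le_one (by positivity)]
        exact hkN.trans (pow_le_pow_right₀ (by norm_num) huv)
      have h2 : (2 : ℝ) ^ (A.card * Aᶜ.card) ≤ E := by
        apply small
        rw [← hab]
        zify
        nlinarith [sq_nonneg ((A.card : ℤ) - Aᶜ.card)]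
      have h3 : 0 ≤ (k : ℝ) ^ N * (1 / 2) ^ (u * v) := by positivity
      calc _ ≤ E * 1 := mul_le_mul h2 h1 h3 hE0.le
        _ = E := mul_one E
    have p1 : (1 + k * (1 / 2 : ℝ) ^ v) ^ A.card ≤ 3 := by
      apply pow_one_add_le
      have h1 : A.card ≤ N := by omega
      calc A.card * k ≤ (8 * k * v) * k := Nat.mul_le_mul_right _ (h1.trans hv1)
        _ = 8 * k ^ 2 * v := by ring
        _ ≤ 2 ^ v := hV v (hVu v hv1)
    have p2 : (1 + k * (1 / 2 : ℝ) ^ u) ^ Aᶜ.card ≤ 3 := by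
      apply pow_one_add_le
      have h1 : Aᶜ.card ≤ N := by omega
      calc Aᶜ.card * k ≤ (8 * k * u) * k := Nat.mul_le_mul_right _ (h1.trans hu1)
        _ = 8 * k ^ 2 * u := by ring
        _ ≤ 2 ^ u := hV u (hVu u hu1)
    have t2 : (2 : ℝ) ^ (A.card * Aᶜ.card) * (k ^ 2 * (((1 + k * (1 / 2) ^ v) ^ A.card *
        (1 + k * (1 / 2) ^ u) ^ Aᶜ.card) * ((A.card + Aᶜ.card + 18) *
          2 ^ max A.card Aᶜ.card))) ≤ 18 * k ^ 2 * (N + 18) * E := by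
      have h1 : (1 + k * (1 / 2 : ℝ) ^ v) ^ A.card * (1 + k * (1 / 2) ^ u) ^ Aᶜ.card ≤ 3 * 3 :=
        mul_le_mul p1 p2 (by positivity) (by norm_num)
      have h2 : ((A.card : ℝ) + Aᶜ.card + 18) = N + 18 := by
        have : ((A.card + Aᶜ.card : ℕ) : ℝ) = N := by exact_mod_cast hab
        push_cast at this
        rw [this]
      have h3 : (2 : ℝ) ^ (A.card * Aᶜ.card) * 2 ^ max A.card Aᶜ.card ≤ 2 * E := by
        rw [← pow_add]
        exact small2 _ (quarter hab)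
      rw [h2]
      calc (2 : ℝ) ^ (A.card * Aᶜ.card) * (k ^ 2 * (((1 + k * (1 / 2) ^ v) ^ A.card *
            (1 + k * (1 / 2) ^ u) ^ Aᶜ.card) * ((N + 18) * 2 ^ max A.card Aᶜ.card)))
          = (k ^ 2 * (N + 18)) * (((1 + k * (1 / 2) ^ v) ^ A.card *
            (1 + k * (1 / 2) ^ u) ^ Aᶜ.card) *
              ((2 : ℝ) ^ (A.card * Aᶜ.card) * 2 ^ max A.card Aᶜ.card)) := by ring
        _ ≤ (k ^ 2 * (N + 18)) * ((3 * 3) * (2 * E)) := by
            apply mul_le_mul_of_nonneg_left _ (by positivity)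
            exact mul_le_mul h1 h3 (by positivity) (by norm_num)
        _ = 18 * k ^ 2 * (N + 18) * E := by ring
    calc (2 : ℝ) ^ (A.card * Aᶜ.card) * ∑ l : α → Fin k, (1 / 2 : ℝ) ^ far A l
        ≤ (2 : ℝ) ^ (A.card * Aᶜ.card) * ((k : ℝ) ^ N * (1 / 2) ^ (u * v) +
      k ^ 2 * (((1 + k * (1 / 2) ^ v) ^ A.card *
        (1 + k * (1 / 2) ^ u) ^ Aᶜ.card) *
        ((A.card + Aᶜ.card + 18) * 2 ^ max A.card Aᶜ.card))) :=
          mul_le_mul_of_nonneg_left hT (by positivity)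
      _ ≤ E + 18 * k ^ 2 * (N + 18) * E := by
          rw [mul_add]
          exact add_le_add t1 t2
      _ ≤ (18 * k ^ 2 + 1) * (N + 18) * E := by nlinarith
  · refine le_trans ?_ hCE
    have hT := far_triv (k := k) A
    rw [hα] at hT
    have h1 : 16 * (A.card * Aᶜ.card) ≤ 3 * N ^ 2 := by
      rw [not_and_or, not_le, not_le] at hcase
      rcases hcase with h | h
      · have : Aᶜ.card = N - A.card := by omega
        obtain ⟨t, ht⟩ := Nat.exists_eq_add_of_le (show 4 * A.card ≤ N by omega)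
        have e : Aᶜ.card = 3 * A.card + t := by omega
        rw [e, ht]
        nlinarith
      · obtain ⟨t, ht⟩ := Nat.exists_eq_add_of_le (show 4 * Aᶜ.card ≤ N by omega)
        have e : A.card = 3 * Aᶜ.card + t := by omega
        rw [e, ht]
        nlinarith
    have h2 : 16 * (k * N) ≤ N ^ 2 := by
      have : 16 * k ≤ N := by nlinarith
      nlinarith
    calc (2 : ℝ) ^ (A.card * Aᶜ.card) * ∑ l : α → Fin k, (1 / 2 : ℝ) ^ far A l
        ≤ (2 : ℝ) ^ (A.card * Aᶜ.card) * 2 ^ (k * N) :=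
          mul_le_mul_of_nonneg_left (hT.trans hkN) (by positivity)
      _ = (2 : ℝ) ^ (A.card * Aᶜ.card + k * N) := by rw [pow_add]
      _ ≤ E := small _ (by omega)

theorem S_bound {k : ℕ} (hk : 1 ≤ k) {V N : ℕ} (hV : ∀ v, V ≤ v → 8 * k ^ 2 * v ≤ 2 ^ v)
    (hN : 64 * k ^ 3 + 8 * k * V ≤ N) (hα : Fintype.card α = N) :
    (∑ l : α → Fin k, (2 : ℝ) ^ adj l) ≤
      (18 * k ^ 2 + 1) * (N + 18) * (2 : ℝ) ^ ((N : ℝ) ^ 2 / 4 + 3 * N / 2) := by
  refine S_le.trans ?_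
  calc _ ≤ ∑ _A : Finset α, (18 * (k : ℝ) ^ 2 + 1) * (N + 18) *
        (2 : ℝ) ^ ((N : ℝ) ^ 2 / 4 + N / 2) := sum_le_sum fun A _ => term_le hk hV hN hα A
    _ = _ := by
      rw [sum_const, card_univ, Fintype.card_finset, hα, nsmul_eq_mul]
      push_cast
      have e : (2 : ℝ) ^ ((N : ℝ) ^ 2 / 4 + 3 * N / 2) =
          (2 : ℝ) ^ ((N : ℝ) ^ 2 / 4 + N / 2) * 2 ^ N := by
        rw [← Real.rpow_natCast 2 N, ← Real.rpow_add (by norm_num)]
        congr 1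
        ring
      rw [e]
      ring

end

/-- the upper bound -/
theorem upper {k : ℕ} (hk : 1 ≤ k) : ∃ (K : ℝ) (n0 : ℕ), 0 < K ∧ ∀ n, n0 ≤ n →
    (a k n : ℝ) ≤ K * (n : ℝ) ^ (k + 1) * (2 : ℝ) ^ ((n : ℝ) ^ 2 / 4 + (7 - k) / 2 * n) := by
  obtain ⟨V, hV⟩ := exists_big k
  refine ⟨(18 * k ^ 2 + 1) * 19 * (2 : ℝ) ^ ((k : ℝ) ^ 2 / 4 - 5 * k / 2),
    64 * k ^ 3 + 8 * k * V + k + 1, by positivity, fun n hn => ?_⟩
  set N := n - k with hNdef
  have hN : 64 * k ^ 3 + 8 * k * V ≤ N := by omega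
  have hNr : (N : ℝ) = n - k := by
    rw [hNdef, Nat.cast_sub (by omega)]
  set B : ℝ := (18 * k ^ 2 + 1) * (N + 18) * (2 : ℝ) ^ ((N : ℝ) ^ 2 / 4 + 3 * N / 2) with hB
  have hB0 : 0 ≤ B := by positivity
  have h1 : ∀ (β : Type) [Fintype β] [DecidableEq β], Fintype.card β = n - k →
      ∑ l : β → Fin k, 2 ^ adj l ≤ ⌊B⌋₊ := by
    intro β _ _ hβ
    apply Nat.le_floor
    have := S_bound (α := β) hk hV hN hβ
    push_cast
    exact this
  have h2 := (a_le k n).trans (surj_le h1)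
  have h3 : (a k n : ℝ) ≤ (n : ℝ) ^ k * (2 ^ (k + 2 * N) * B) := by
    have h4 : (a k n : ℝ) ≤ ((n ^ k * (2 ^ (k + 2 * N) * ⌊B⌋₊) : ℕ) : ℝ) := by exact_mod_cast h2
    push_cast at h4
    refine h4.trans ?_
    have := Nat.floor_le hB0
    gcongr
  refine h3.trans ?_
  have hn1 : (1 : ℝ) ≤ n := by exact_mod_cast (show 1 ≤ n by omega)
  have hk1 : (1 : ℝ) ≤ k := by exact_mod_cast hk
  have e1 : (N : ℝ) + 18 ≤ 19 * n := by rw [hNr]; linarith
  have e2 : (2 : ℝ) ^ (k + 2 * N) * (2 : ℝ) ^ ((N : ℝ) ^ 2 / 4 + 3 * N / 2) =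
      (2 : ℝ) ^ ((k : ℝ) ^ 2 / 4 - 5 * k / 2) * (2 : ℝ) ^ ((n : ℝ) ^ 2 / 4 + (7 - k) / 2 * n) := by
    rw [← Real.rpow_natCast, ← Real.rpow_add (by norm_num), ← Real.rpow_add (by norm_num)]
    congr 1
    push_cast
    rw [hNr]
    ring
  calc (n : ℝ) ^ k * (2 ^ (k + 2 * N) * B)
      = (n : ℝ) ^ k * (18 * k ^ 2 + 1) * (N + 18) *
        ((2 : ℝ) ^ (k + 2 * N) * (2 : ℝ) ^ ((N : ℝ) ^ 2 / 4 + 3 * N / 2)) := by rw [hB]; ring
    _ = (n : ℝ) ^ k * (18 * k ^ 2 + 1) * (N + 18) *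
        ((2 : ℝ) ^ ((k : ℝ) ^ 2 / 4 - 5 * k / 2) *
          (2 : ℝ) ^ ((n : ℝ) ^ 2 / 4 + (7 - k) / 2 * n)) := by rw [e2]
    _ ≤ (n : ℝ) ^ k * (18 * k ^ 2 + 1) * (19 * n) *
        ((2 : ℝ) ^ ((k : ℝ) ^ 2 / 4 - 5 * k / 2) *
          (2 : ℝ) ^ ((n : ℝ) ^ 2 / 4 + (7 - k) / 2 * n)) := by gcongr
    _ = _ := by rw [pow_succ]; ring

end Pool.Agent.U446.GO
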